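import Pool.Agent.Q310.OS.Chain

/-!
# Cardinals in the extension
-/

set_option autoImplicit false
set_option linter.unusedSectionVars false

open Set Cardinal Pool.Agent.IncSeq Pool.Agent.Helper292.SP

namespace Pool.Agent.Q310.OS

variable {K : Type} [LinearOrder K] [KK K] {I W : Type}

/-- restricting the domain of a lower bound -/
theorem restrict {p q m : CC K I W} (h1 : m ≤ p) (h2 : m ≤ q) :
    ∃ m' : CC K I W, m' ≤ p ∧ m' ≤ q ∧ m'.d = p.d ∪ q.d := by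
  refine ⟨{ m with
    d := p.d ∪ q.d
    hd := p.hd.union q.hd
    hw := ?_ }, ⟨h1.1, h1.2.1, subset_union_left, h1.2.2.2⟩,
      ⟨h2.1, h2.2.1, subset_union_right, h2.2.2.2⟩, rfl⟩
  rintro j (hj | hj)
  · exact m.hw j (h1.2.2.1 hj)
  · exact m.hw j (h2.2.2.1 hj)

/-- small predense subsets -/
theorem predense (Q : Set (CC K I W)) : ∃ Q' ⊆ Q, #Q' ≤ (2 : Cardinal.{0}) ^ ℵ₀ ∧
    ∀ q ∈ Q, ∃ q' ∈ Q', ∃ m : CC K I W, m ≤ q ∧ m ≤ q' := by
  obtain ⟨M, hM⟩ := zorn_subset {S : Set (CC K I W) | S ⊆ Q ∧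
    ∀ a ∈ S, ∀ b ∈ S, a ≠ b → ¬ ∃ m : CC K I W, m ≤ a ∧ m ≤ b} (by
      intro c hc hch
      refine ⟨⋃₀ c, ⟨sUnion_subset fun s hs => (hc hs).1, ?_⟩, fun s hs => subset_sUnion_of_mem hs⟩
      rintro a ⟨s, hs, ha⟩ b ⟨t, ht, hb⟩ hab
      rcases hch.total hs ht with h | h
      · exact (hc ht).2 a (h ha) b hb hab
      · exact (hc hs).2 a ha b (h hb) hab)
  refine ⟨M, hM.prop.1, ?_, ?_⟩
  · by_contra hcon
    obtain ⟨e, he, e', he', hne, m, h1, h2, -⟩ := cc M hcon id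
    exact hM.prop.2 e he e' he' hne ⟨m, h1, h2⟩
  · intro q hq
    by_contra hcon
    push Not at hcon
    have hins : insert q M ∈ {S : Set (CC K I W) | S ⊆ Q ∧
        ∀ a ∈ S, ∀ b ∈ S, a ≠ b → ¬ ∃ m : CC K I W, m ≤ a ∧ m ≤ b} := by
      refine ⟨insert_subset hq hM.prop.1, ?_⟩
      rintro a (rfl | ha) b (rfl | hb) hab ⟨m, h1, h2⟩
      · exact hab rfl
      · exact hcon b hb m h1 h2
      · exact hcon a ha m h2 h1
      · exact hM.prop.2 a ha b hb hab ⟨m, h1, h2⟩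
    have hqM : q ∈ M := hM.le_of_ge hins (subset_insert q M) (mem_insert q M)
    exact hcon q hqM q le_rfl le_rfl

theorem not_onto_K (hW : #W ≤ (2 : Cardinal.{0}) ^ ℵ₀) (p : CC K I W) :
    p ∈ fnot (Onto (CC K I W) W K) := by
  intro q _ hq
  obtain ⟨r, hr, F, hF, hcov⟩ := mem_fex.1 hq q le_rfl
  let V : W → Set K := fun x => {y | ∃ s ≤ r, s ∈ meets (F x y)}
  have hV : ∀ x, #(V x) ≤ (2 : Cardinal.{0}) ^ ℵ₀ := by
    intro x
    by_contra hcon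
    have hch : ∀ y : K, ∃ s : CC K I W, y ∈ V x → (s ≤ r ∧ s ∈ meets (F x y)) := by
      intro y
      by_cases h : y ∈ V x
      · obtain ⟨s, hs⟩ := h
        exact ⟨s, fun _ => hs⟩
      · exact ⟨r, fun h' => absurd h' h⟩
    choose g hg using hch
    obtain ⟨y, hy, y', hy', hne, m, h1, h2, -⟩ := cc (V x) hcon g
    exact hne (IsFun_fun F r hF m (h1.trans (hg y hy).1) x y y' (down_meets (hg y hy).2 h1)
      (down_meets (hg y' hy').2 h2))
  obtain ⟨b, hb⟩ := KK.bdd (⋃ x, V x) (DS.small_iUnion aleph0_le_cont hW V hV)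
  obtain ⟨s, hs, h⟩ := mem_fimp.1 (hcov b) r le_rfl (fun t ht => ⟨t, le_rfl, t, mem_univ _, le_rfl⟩)
  obtain ⟨t, ht, x, hx⟩ := mem_fex.1 h s le_rfl
  exact lt_irrefl b (hb b (mem_iUnion.2 ⟨x, t, ht.trans hs, hx⟩))

theorem not_onto_nat (hW : ¬ (univ : Set W).Countable) (p : CC K I W) :
    p ∈ fnot (Onto (CC K I W) ℕ W) := by
  intro q _ hq
  obtain ⟨r, hr, F, hF, hcov⟩ := mem_fex.1 hq q le_rfl
  have hstep : ∀ (n : ℕ) (s : {s : CC K I W // s ≤ r}), ∃ t : {t : CC K I W // t ≤ r},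
      t.1 ≤ s.1 ∧ ∃ y, t.1 ∈ meets (F n y) := by
    intro n s
    obtain ⟨t, ht, y, hy⟩ := IsFun_tot F r hF s.1 s.2 n
    exact ⟨⟨t, ht.trans s.2⟩, ht, y, hy⟩
  choose G hG1 y hG2 using hstep
  let s : ℕ → {s : CC K I W // s ≤ r} := fun n => Nat.rec ⟨r, le_rfl⟩ (fun n s => G n s) n
  have hs : ∀ n, s (n + 1) = G n (s n) := fun n => rfl
  have hle : ∀ m n, m ≤ n → (s n).1 ≤ (s m).1 := by
    intro m n h
    induction n, h using Nat.le_induction with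
    | base => exact le_rfl
    | succ n _ ih => rw [hs]; exact (hG1 n _).trans ih
  obtain ⟨u, hu, -⟩ := exists_lb (f := fun n => (s n).1) hle
  obtain ⟨w, hw⟩ : ∃ w : W, ∀ n, w ≠ y n (s n) := by
    by_contra hcon
    push Not at hcon
    apply hW
    refine (countable_range fun n => y n (s n)).mono ?_
    intro w _
    obtain ⟨n, hn⟩ := hcon w
    exact ⟨n, hn.symm⟩
  have hur : u ≤ r := (hu 0).trans (s 0).2
  obtain ⟨v, hv, h⟩ := mem_fimp.1 (hcov w) u hur (fun t ht => ⟨t, le_rfl, t, mem_univ _, le_rfl⟩)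
  obtain ⟨t, ht, n, hn⟩ := mem_fex.1 h v le_rfl
  have h1 : t ∈ meets (F n (y n (s n))) := by
    refine down_meets (hG2 n (s n)) ?_
    have := hu (n + 1)
    simp only [hs] at this
    exact ht.trans (hv.trans this)
  exact hw n (IsFun_fun F r hF t (ht.trans (hv.trans hur)) n _ _ hn h1)

theorem exists_fresh (hW : ¬ (univ : Set W).Countable) (D : Set (Jx I W K)) (hD : D.Countable)
    (g : W → Jx I W K) (hg : Function.Injective g) : ∃ i, g i ∉ D := by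
  by_contra hcon
  push Not at hcon
  apply hW
  have : (univ : Set W) ⊆ g ⁻¹' D := fun i _ => hcon i
  exact (hD.preimage hg).mono this

theorem onto_seg (hW : ¬ (univ : Set W).Countable) (a : K) (ha : ∃ b, b < a) (p : CC K I W) :
    p ∈ Onto (CC K I W) W (Iio a) := by
  obtain ⟨b, hb⟩ := ha
  refine mem_fex.2 fun q _ => ⟨q, le_rfl, fun i y => {r | Sum.inr (a, i) ∈ r.d ∧
    r.w (Sum.inr (a, i)) = y.1}, ⟨?_, ?_⟩, ?_⟩
  · intro i
    refine mem_fex.2 fun r _ => ?_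
    by_cases h : (Sum.inr (a, i) : Jx I W K) ∈ r.d
    · refine ⟨r, le_rfl, ⟨r.w (Sum.inr (a, i)), r.hw _ h⟩, ?_⟩
      exact fun s hs => ⟨s, le_rfl, r, ⟨h, rfl⟩, hs⟩
    · obtain ⟨s, hs, -, -, hd, hw⟩ := add_val r (Sum.inr (a, i)) h b hb
      refine ⟨s, hs, ⟨b, hb⟩, fun t ht => ⟨t, le_rfl, s, ⟨?_, hw⟩, ht⟩⟩
      rw [hd]; exact mem_insert _ _
  · intro i y y'
    refine mem_fimp.2 fun r _ h => ⟨r, le_rfl, ?_⟩
    obtain ⟨s, hs, u, hu, hsu⟩ := h.1 r le_rfl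
    obtain ⟨t, ht, v, hv, htv⟩ := h.2 s hs
    change y = y'
    apply Subtype.ext
    rw [← hu.2, ← hv.2, ← (ht.trans hsu).2.2.2 _ hu.1, ← htv.2.2.2 _ hv.1]
  · intro y
    refine mem_fimp.2 fun r _ _ => ⟨r, le_rfl, mem_fex.2 fun s _ => ?_⟩
    obtain ⟨i, hi⟩ := exists_fresh hW s.d s.hd (fun i => (Sum.inr (a, i) : Jx I W K))
      (fun i j h => by simpa using h)
    obtain ⟨t, ht, -, -, hd, hw⟩ := add_val s (Sum.inr (a, i)) hi y.1 y.2
    refine ⟨t, ht, i, fun u hu => ⟨u, le_rfl, t, ⟨?_, hw⟩, hu⟩⟩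
    rw [hd]; exact mem_insert _ _

/-- first coordinates -/
def prI : Jx I W K → Option I
  | Sum.inl (v, _) => some v
  | Sum.inr _ => none

theorem pow_big (hW : ¬ (univ : Set W).Countable) (hW' : #W ≤ (2 : Cardinal.{0}) ^ ℵ₀)
    (hK : (2 : Cardinal.{0}) ^ ℵ₀ ≤ #K) (hI : #K < #I) (p : CC K I W) :
    p ∈ PowNotLe (CC K I W) W K := by
  classical
  intro q _ hq
  obtain ⟨r, hr, E, hE⟩ := mem_fex.1 hq q le_rfl
  let Dec : K → W → Set (CC K I W) := fun y x =>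
    {s | s ∈ meets (E y x) ∨ s ∈ fnot (meets (E y x))}
  choose Q hQD hQc hQ using fun (y : K) (x : W) => predense (Dec y x)
  let N : Set I := ⋃ z : K × W, ⋃ s : Q z.1 z.2, {v | ∃ i, (Sum.inl (v, i) : Jx I W K) ∈ s.1.d}
  have hKinf : ℵ₀ ≤ #K := aleph0_le_cont.trans hK
  have hN : #N ≤ #K := by
    refine DS.small_iUnion hKinf ?_ _ fun z => DS.small_iUnion hKinf ((hQc _ _).trans hK) _
      fun s => ?_
    · rw [Cardinal.mk_prod, Cardinal.lift_id, Cardinal.lift_id]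
      exact (mul_le_mul' le_rfl (hW'.trans hK)).trans (Cardinal.mul_eq_self hKinf).le
    · refine (Cardinal.le_aleph0_iff_set_countable.2 ?_).trans hKinf
      have : {v | ∃ i, (Sum.inl (v, i) : Jx I W K) ∈ s.1.d} ⊆ some ⁻¹' (prI '' s.1.d) := by
        rintro v ⟨i, hi⟩
        exact ⟨_, hi, rfl⟩
      exact (((s.1.hd).image prI).preimage (Option.some_injective I)).mono this
  obtain ⟨v, hv⟩ : ∃ v : I, v ∉ N := by
    by_contra hcon
    push Not at hcon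
    have : N = Set.univ := eq_univ_of_forall hcon
    rw [this, Cardinal.mk_univ] at hN
    exact absurd hI (not_lt.2 hN)
  -- the generic subset
  let o : K := Classical.choice (KK.ne (K := K))
  have ho1 : ∀ x : W, o < bd (Sum.inl (v, x) : Jx I W K) := fun x => (lt_nx o).trans (lt_nx _)
  have ho2 : ∀ x : W, nx o < bd (Sum.inl (v, x) : Jx I W K) := fun x => lt_nx _
  obtain ⟨r1, hr1, y, hy⟩ := mem_fex.1 (hE fun x => {s : CC K I W | Sum.inl (v, x) ∈ s.d ∧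
    s.w (Sum.inl (v, x)) = o}) r le_rfl
  obtain ⟨x, hx⟩ := exists_fresh hW r1.d r1.hd (fun x => (Sum.inl (v, x) : Jx I W K))
    (fun i j h => by simpa using h)
  have hdec : ∃ s ≤ r1, s ∈ Dec y x := by
    by_cases h : ∃ s ≤ r1, s ∈ meets (E y x)
    · obtain ⟨s, hs, h⟩ := h
      exact ⟨s, hs, Or.inl h⟩
    · push Not at h
      exact ⟨r1, le_rfl, Or.inr h⟩
  obtain ⟨s, hs, hsD⟩ := hdec
  obtain ⟨s', hs', m0, hm1, hm2⟩ := hQ y x s hsD
  obtain ⟨m, h1, h2, h3⟩ := restrict (hm1.trans hs) hm2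
  have hxm : (Sum.inl (v, x) : Jx I W K) ∉ m.d := by
    rw [h3]
    rintro (h | h)
    · exact hx h
    · apply hv
      exact mem_iUnion.2 ⟨(y, x), mem_iUnion.2 ⟨⟨s', hs'⟩, x, h⟩⟩
  rcases hQD y x hs' with hs'D | hs'D
  · obtain ⟨t, ht, -, -, hd, hw⟩ := add_val m (Sum.inl (v, x)) hxm (nx o) (ho2 x)
    obtain ⟨u, hu, hZ⟩ := mem_fimp.1 (hy x).2 t (ht.trans h1) (down_meets hs'D (ht.trans h2))
    obtain ⟨u', hu', z, hz, huz⟩ := hZ u le_rfl
    have h4 : u'.w (Sum.inl (v, x)) = o := by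
      rw [huz.2.2.2 _ hz.1]; exact hz.2
    have h5 : u'.w (Sum.inl (v, x)) = nx o := by
      rw [(hu'.trans hu).2.2.2 _ (by rw [hd]; exact mem_insert _ _)]; exact hw
    exact absurd (h4.symm.trans h5) (lt_nx o).ne
  · obtain ⟨t, ht, -, -, hd, hw⟩ := add_val m (Sum.inl (v, x)) hxm o (ho1 x)
    obtain ⟨u, hu, hZ⟩ := mem_fimp.1 (hy x).1 t (ht.trans h1) (fun t' ht' =>
      ⟨t', le_rfl, t, ⟨by rw [hd]; exact mem_insert _ _, hw⟩, ht'⟩)
    exact hs'D u (hu.trans (ht.trans h2)) hZ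

end Pool.Agent.Q310.OS
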