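import Pool.Agent.Q310.OS.Sq

/-!
# The chain condition
-/

set_option autoImplicit false
set_option linter.unusedSectionVars false

open Set Cardinal Pool.Agent.IncSeq Pool.Agent.Helper292.SP

namespace Pool.Agent.Q310.OS

variable {K : Type} [LinearOrder K] [KK K] {I W : Type}

/-- the part of the support in `K` -/
def SK (p : CC K I W) : Set K := {x | x ∈ p.a ∨ ∃ y ∈ p.a, x ∈ p.c y}

theorem SK_countable (p : CC K I W) : (SK p).Countable := by
  have : SK p = p.a ∪ ⋃ y ∈ p.a, p.c y := by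
    ext x; simp [SK]
  rw [this]
  exact p.ha.union (p.ha.biUnion fun y hy => p.hc y hy)

theorem w_amalg {p r : CC K I W} (s : K) (RK : Set K)
    (hA1 : ∀ x ∈ p.a, x ∈ r.a → x ∈ RK)
    (hA2 : ∀ x ∈ RK, x ∈ r.a → x ∈ p.a)
    (hA2' : ∀ x ∈ RK, x ∈ p.a → p.c x = r.c x)
    (hs : ∀ x ∈ SK p, x < s)
    (hRs : ∀ x ∈ RK, x < s)
    (hr : ∀ x ∈ SK r, x ∉ RK → s < x)
    (hw : ∀ j ∈ p.d, j ∈ r.d → p.w j = r.w j) :
    ∃ m : CC K I W, m ≤ p ∧ m ≤ r ∧ m.d = p.d ∪ r.d := by
  classical
  have hA3 : ∀ x ∈ r.a, x ∉ p.a → s < x := fun x hx hn =>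
    hr x (Or.inl hx) (fun h => hn (hA2 x h hx))
  let c' : K → Set K := fun x => if x ∈ p.a then p.c x
    else r.c x ∪ {y | y = s ∧ ∀ z ∈ r.c x, z ∈ RK}
  have hc1 : ∀ x ∈ p.a, c' x = p.c x := fun x hx => if_pos hx
  have hc2 : ∀ x, x ∉ p.a → c' x = r.c x ∪ {y | y = s ∧ ∀ z ∈ r.c x, z ∈ RK} :=
    fun x hx => if_neg hx
  have hc3 : ∀ x, x ∉ p.a → (∀ z ∈ r.c x, z ∈ RK) → c' x = r.c x ∪ {s} := by
    intro x hx h
    rw [hc2 x hx]
    ext y
    simp only [mem_union, Set.mem_ofPred_eq, mem_singleton_iff]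
    constructor
    · rintro (h1 | h1)
      · exact Or.inl h1
      · exact Or.inr h1.1
    · rintro (h1 | h1)
      · exact Or.inl h1
      · exact Or.inr ⟨h1, h⟩
  have hc4 : ∀ x, x ∉ p.a → (¬ ∀ z ∈ r.c x, z ∈ RK) → c' x = r.c x := by
    intro x hx h
    rw [hc2 x hx]
    ext y
    simp only [mem_union, Set.mem_ofPred_eq]
    constructor
    · rintro (h1 | h1)
      · exact h1
      · exact absurd h1.2 h
    · exact Or.inl
  let m : CC K I W :=
    { a := p.a ∪ r.a
      c := c'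
      d := p.d ∪ r.d
      w := fun j => if j ∈ p.d then p.w j else r.w j
      ha := p.ha.union r.ha
      hd := p.hd.union r.hd
      hw := by
        intro j hj
        by_cases h : j ∈ p.d
        · rw [if_pos h]; exact p.hw j h
        · rw [if_neg h]
          rcases hj with hj | hj
          · exact absurd hj h
          · exact r.hw j hj
      hlim := by
        rintro x (hx | hx)
        · exact p.hlim x hx
        · exact r.hlim x hx
      hc := by
        intro x hx
        by_cases h : x ∈ p.a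
        · rw [hc1 x h]; exact p.hc x h
        · rw [hc2 x h]
          have hxr : x ∈ r.a := by
            rcases hx with hx | hx
            · exact absurd hx h
            · exact hx
          refine (r.hc x hxr).union ((countable_singleton s).mono ?_)
          rintro y ⟨rfl, -⟩
          rfl
      hsub := by
        intro x hx y hy
        by_cases h : x ∈ p.a
        · rw [hc1 x h] at hy; exact p.hsub x h y hy
        · rw [hc2 x h] at hy
          have hxr : x ∈ r.a := by
            rcases hx with hx | hx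
            · exact absurd hx h
            · exact hx
          rcases hy with hy | ⟨rfl, -⟩
          · exact r.hsub x hxr y hy
          · exact hA3 x hxr h
      hcoh := by
        intro x hx g hgx hg
        by_cases h : x ∈ p.a
        · rw [hc1 x h] at hg ⊢
          obtain ⟨h1, h2, h3⟩ := p.hcoh x h g hgx hg
          rw [hc1 g h2]
          exact ⟨h1, Or.inl h2, h3⟩
        · have hxr : x ∈ r.a := by
            rcases hx with hx | hx
            · exact absurd hx h
            · exact hx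
          by_cases hall : ∀ z ∈ r.c x, z ∈ RK
          · rw [hc3 x h hall] at hg ⊢
            obtain ⟨hg', hgs⟩ := lim_add hg (fun y hy => hRs y (hall y hy))
            obtain ⟨h1, h2, h3⟩ := r.hcoh x hxr g hgx hg'
            have h4 : g ∈ RK := hall g h1
            have h5 : g ∈ p.a := hA2 g h4 h2
            rw [hc1 g h5, hA2' g h4 h5]
            refine ⟨Or.inl h1, Or.inr h2, fun y => ?_⟩
            rw [h3]
            constructor
            · rintro ⟨h6, h7⟩
              exact ⟨Or.inl h6, h7⟩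
            · rintro ⟨h6 | h6, h7⟩
              · exact ⟨h6, h7⟩
              · rw [mem_singleton_iff.1 h6] at h7
                exact absurd h7 (not_lt.2 hgs)
          · rw [hc4 x h hall] at hg ⊢
            obtain ⟨h1, h2, h3⟩ := r.hcoh x hxr g hgx hg
            by_cases hgR : g ∈ RK
            · have h5 : g ∈ p.a := hA2 g hgR h2
              rw [hc1 g h5, hA2' g hgR h5]
              exact ⟨h1, Or.inr h2, h3⟩
            · have h5 : g ∉ p.a := fun h' => hgR (hA1 g h' h2)
              have hsg : s < g := hA3 g h2 h5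
              obtain ⟨y, hy, h6, h7⟩ := hg.2 s hsg
              have h8 : ¬ ∀ z ∈ r.c g, z ∈ RK := by
                intro h'
                exact absurd (hRs y (h' y ((h3 y).2 ⟨hy, h7⟩))) (not_lt.2 h6.le)
              rw [hc4 g h5 h8]
              exact ⟨h1, Or.inr h2, h3⟩
      hsep := by
        intro x hx x' hx' hlt
        by_cases h' : x' ∈ p.a
        · by_cases h : x ∈ p.a
          · rw [hc1 x' h']
            exact p.hsep x h x' h' hlt
          · have hxr : x ∈ r.a := by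
              rcases hx with hx | hx
              · exact absurd hx h
              · exact hx
            exact absurd ((hA3 x hxr h).trans hlt) (not_lt.2 (hs x' (Or.inl h')).le)
        · have hxr' : x' ∈ r.a := by
            rcases hx' with hx' | hx'
            · exact absurd hx' h'
            · exact hx'
          by_cases h : x ∈ p.a
          · have hxs : x < s := hs x (Or.inl h)
            by_cases hall : ∀ z ∈ r.c x', z ∈ RK
            · rw [hc3 x' h' hall]
              exact ⟨s, Or.inr rfl, hxs⟩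
            · rw [hc4 x' h' hall]
              push Not at hall
              obtain ⟨z, hz, hzR⟩ := hall
              exact ⟨z, hz, hxs.trans (hr z (Or.inr ⟨x', hxr', hz⟩) hzR)⟩
          · have hxr : x ∈ r.a := by
              rcases hx with hx | hx
              · exact absurd hx h
              · exact hx
            obtain ⟨y, hy, hxy⟩ := r.hsep x hxr x' hxr' hlt
            rw [hc2 x' h']
            exact ⟨y, Or.inl hy, hxy⟩ }
  refine ⟨m, ⟨subset_union_left, fun x hx => ?_, subset_union_left, fun j hj => if_pos hj⟩,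
    ⟨subset_union_right, fun x hx => ?_, subset_union_right, fun j hj => ?_⟩, rfl⟩
  · have h1 : m.c x = p.c x := hc1 x hx
    rw [h1]
    exact ⟨subset_rfl, fun y hy hn => absurd hy hn⟩
  · by_cases h : x ∈ p.a
    · have h1 : m.c x = r.c x := (hc1 x h).trans (hA2' x (hA1 x h hx) h)
      rw [h1]
      exact ⟨subset_rfl, fun y hy hn => absurd hy hn⟩
    · have h1 : m.c x = r.c x ∪ {y | y = s ∧ ∀ z ∈ r.c x, z ∈ RK} := hc2 x h
      rw [h1]
      refine ⟨subset_union_left, fun y hy hn z hz => ?_⟩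
      rcases hy with hy | ⟨rfl, hall⟩
      · exact absurd hy hn
      · exact hRs z (hall z hz)
  · by_cases h : j ∈ p.d
    · change (if j ∈ p.d then p.w j else r.w j) = r.w j
      rw [if_pos h]
      exact hw j h hj
    · exact if_neg h

theorem pow_le {τ : Cardinal.{0}} (hτ : τ ≤ ℵ₀) :
    ((2 : Cardinal.{0}) ^ ℵ₀) ^ τ ≤ (2 : Cardinal.{0}) ^ ℵ₀ := by
  rw [← Cardinal.power_mul]
  refine Cardinal.power_le_power_left two_ne_zero ?_
  exact (mul_le_mul_right hτ ℵ₀).trans (Cardinal.aleph0_mul_aleph0).le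

theorem aleph0_le_cont : ℵ₀ ≤ (2 : Cardinal.{0}) ^ ℵ₀ := (Cardinal.cantor ℵ₀).le

open Classical in
/-- The chain condition: among more than continuum many conditions two are compatible; moreover
there is a common lower bound whose domain is the union of the domains. -/
theorem cc {E : Type} (T : Set E) (hT : ¬ #T ≤ (2 : Cardinal.{0}) ^ ℵ₀) (q : E → CC K I W) :
    ∃ e ∈ T, ∃ e' ∈ T, e ≠ e' ∧ ∃ m : CC K I W, m ≤ q e ∧ m ≤ q e' ∧
      m.d = (q e).d ∪ (q e').d := by
  have hχ := aleph0_le_cont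
  let Z : E → Set (K ⊕ Jx I W K) := fun e => Sum.inl '' SK (q e) ∪ Sum.inr '' (q e).d
  have hZ : ∀ e, #(Z e) < Order.succ ℵ₀ := by
    intro e
    rw [Order.lt_succ_iff]
    exact Cardinal.le_aleph0_iff_set_countable.2
      (((SK_countable (q e)).image _).union ((q e).hd.image _))
  obtain ⟨T1, R, hT1T, hT1, hR⟩ := delta_sys (χ := (2 : Cardinal.{0}) ^ ℵ₀) (σ := Order.succ ℵ₀)
    hχ (Order.succ_le_of_lt (Cardinal.cantor ℵ₀)) (fun τ hτ => pow_le (Order.lt_succ_iff.1 hτ))
    T hT Z hZ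
  let RK : Set K := {k | Sum.inl k ∈ R}
  let RJ : Set (Jx I W K) := {j | Sum.inr j ∈ R}
  have hinl : ∀ e k, Sum.inl k ∈ Z e ↔ k ∈ SK (q e) := by
    intro e k
    simp only [Z, mem_union, mem_image, Sum.inl.injEq, exists_eq_right, reduceCtorEq, and_false,
      exists_false, or_false]
  have hinr : ∀ e j, Sum.inr j ∈ Z e ↔ j ∈ (q e).d := by
    intro e k
    simp only [Z, mem_union, mem_image, Sum.inr.injEq, exists_eq_right, reduceCtorEq, and_false,
      exists_false, false_or]
  -- every element of `T1` has a different one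
  have hother : ∀ e ∈ T1, ∃ e' ∈ T1, e ≠ e' := by
    intro e _
    by_contra hcon
    push Not at hcon
    apply hT1
    have : T1 ⊆ {e} := fun x hx => (hcon x hx).symm
    exact (Cardinal.mk_le_mk_of_subset this).trans (by
      rw [Cardinal.mk_singleton]; exact Cardinal.one_le_aleph0.trans hχ)
  have hRZ : ∀ e ∈ T1, R ⊆ Z e := by
    intro e he
    obtain ⟨e', he', hne⟩ := hother e he
    rw [← hR e he e' he' hne]
    exact inter_subset_left
  obtain ⟨e1, he1⟩ : T1.Nonempty := by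
    by_contra h
    rw [Set.not_nonempty_iff_eq_empty] at h
    apply hT1
    rw [h]
    simp
  have hRKc : RK.Countable := (SK_countable (q e1)).mono fun k hk => (hinl e1 k).1 (hRZ e1 he1 hk)
  have hRJc : RJ.Countable := (q e1).hd.mono fun j hj => (hinr e1 j).1 (hRZ e1 he1 hj)
  -- pushing up
  have hpush : ∀ (T' : Set E), T' ⊆ T1 → (¬ #T' ≤ (2 : Cardinal.{0}) ^ ℵ₀) → ∀ b : K,
      ¬ #({e | e ∈ T' ∧ ∀ k ∈ SK (q e), k ∉ RK → b < k} : Set E) ≤ (2 : Cardinal.{0}) ^ ℵ₀ := by
    intro T' hT' hbig b hcon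
    apply hbig
    have hsub : T' ⊆ {e | e ∈ T' ∧ ∀ k ∈ SK (q e), k ∉ RK → b < k} ∪
        {e | e ∈ T' ∧ ∃ k ∈ SK (q e), k ∉ RK ∧ k ≤ b} := by
      intro e he
      by_cases h : ∀ k ∈ SK (q e), k ∉ RK → b < k
      · exact Or.inl ⟨he, h⟩
      · push Not at h
        exact Or.inr ⟨he, h⟩
    have h2 : #({e | e ∈ T' ∧ ∃ k ∈ SK (q e), k ∉ RK ∧ k ≤ b} : Set E) ≤ (2 : Cardinal.{0}) ^ ℵ₀ := by
      refine le_trans ?_ (KK.small b)
      have hch : ∀ e : ({e | e ∈ T' ∧ ∃ k ∈ SK (q e), k ∉ RK ∧ k ≤ b} : Set E),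
        ∃ k : Iic b, k.1 ∈ SK (q e.1) ∧ k.1 ∉ RK := fun e => by
        obtain ⟨k, h1, h2, h3⟩ := e.2.2
        exact ⟨⟨k, h3⟩, h1, h2⟩
      choose g hg1 hg2 using hch
      refine Cardinal.mk_le_of_injective (f := g) ?_
      intro e e' hee
      by_contra hne
      have h3 : (e : E) ≠ e' := fun h => hne (Subtype.ext h)
      have h4 : Sum.inl (g e).1 ∈ Z e.1 ∩ Z e'.1 :=
        ⟨(hinl _ _).2 (hg1 e), (hinl _ _).2 (by rw [hee]; exact hg1 e')⟩
      rw [hR _ (hT' e.2.1) _ (hT' e'.2.1) h3] at h4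
      exact hg2 e h4
    exact (Cardinal.mk_le_mk_of_subset hsub).trans
      ((Cardinal.mk_union_le _ _).trans (Cardinal.add_le_of_le hχ hcon h2))
  obtain ⟨b0, hb0⟩ := bdd_countable RK hRKc
  have hT2 := hpush T1 subset_rfl hT1 b0
  -- the codes
  let C : Type := Set RK × Set (RK × RK) × ((j : RJ) → Iic (bd j.1))
  have hCc : #C ≤ (2 : Cardinal.{0}) ^ ℵ₀ := by
    have h1 : #(Set RK) ≤ (2 : Cardinal.{0}) ^ ℵ₀ := by
      rw [Cardinal.mk_set]
      exact Cardinal.power_le_power_left two_ne_zero (Cardinal.le_aleph0_iff_set_countable.2 hRKc)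
    have h2 : #(Set (RK × RK)) ≤ (2 : Cardinal.{0}) ^ ℵ₀ := by
      rw [Cardinal.mk_set]
      have : Countable RK := hRKc.to_subtype
      exact Cardinal.power_le_power_left two_ne_zero Cardinal.mk_le_aleph0
    have h3 : #((j : RJ) → Iic (bd j.1)) ≤ (2 : Cardinal.{0}) ^ ℵ₀ := by
      rw [Cardinal.mk_pi]
      refine (Cardinal.prod_le_prod _ (fun _ => (2 : Cardinal.{0}) ^ ℵ₀) fun j => KK.small _).trans ?_
      rw [Cardinal.prod_const']
      exact pow_le (Cardinal.le_aleph0_iff_set_countable.2 hRJc)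
    have h4 : #C = #(Set RK) * (#(Set (RK × RK)) * #((j : RJ) → Iic (bd j.1))) := by
      simp only [C, Cardinal.mk_prod, Cardinal.lift_id]
    rw [h4]
    exact (mul_le_mul' h1 (mul_le_mul' h2 h3)).trans (by
      rw [Cardinal.mul_eq_self hχ, Cardinal.mul_eq_self hχ])
  obtain ⟨T3, z, hT3sub, hT3, hz⟩ := pigeon hχ _ hT2 (fun e => ((⟨{x : RK | x.1 ∈ (q e).a},
    {x : RK × RK | x.1.1 ∈ (q e).a ∧ x.2.1 ∈ (q e).c x.1.1},
      fun j => ⟨min ((q e).w j.1) (bd j.1), min_le_right _ _⟩⟩ : C))) hCc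
  obtain ⟨e2, he2⟩ : T3.Nonempty := by
    by_contra h
    rw [Set.not_nonempty_iff_eq_empty] at h
    apply hT3
    rw [h]
    simp
  have hT3T1 : T3 ⊆ T1 := fun e he => (hT3sub he).1
  obtain ⟨s, hs⟩ := bdd_countable (SK (q e2)) (SK_countable _)
  have hT4 := hpush T3 hT3T1 hT3 s
  obtain ⟨e3, he3, hne⟩ : ∃ e3 ∈ {e | e ∈ T3 ∧ ∀ k ∈ SK (q e), k ∉ RK → s < k}, e3 ≠ e2 := by
    by_contra hcon
    push Not at hcon
    apply hT4
    have : {e | e ∈ T3 ∧ ∀ k ∈ SK (q e), k ∉ RK → s < k} ⊆ {e2} := fun x hx => hcon x hx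
    exact (Cardinal.mk_le_mk_of_subset this).trans (by
      rw [Cardinal.mk_singleton]; exact Cardinal.one_le_aleph0.trans hχ)
  have h23 : Z e2 ∩ Z e3 = R := hR e2 (hT3T1 he2) e3 (hT3T1 he3.1) hne.symm
  have hcode := (hz e2 he2).trans (hz e3 he3.1).symm
  simp only [Prod.mk.injEq] at hcode
  obtain ⟨k1, k2, k3⟩ := hcode
  have hRKs : ∀ x ∈ RK, x ∈ SK (q e2) := fun x hx => (hinl e2 x).1 (hRZ e2 (hT3T1 he2) hx)
  have ha23 : ∀ x ∈ RK, (x ∈ (q e2).a ↔ x ∈ (q e3).a) := by
    intro x hx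
    have := Set.ext_iff.1 k1 ⟨x, hx⟩
    exact this
  have hcR : ∀ e ∈ T3, ∀ x ∈ RK, x ∈ (q e).a → (q e).c x ⊆ RK := by
    intro e he x hx hxa y hy
    by_contra hyR
    have h1 := (hT3sub he).2 y (Or.inr ⟨x, hxa, hy⟩) hyR
    exact absurd ((h1.trans ((q e).hsub x hxa y hy)).trans (hb0 x hx)) (lt_irrefl _)
  refine ⟨e2, hT1T (hT3T1 he2), e3, hT1T (hT3T1 he3.1), hne.symm, ?_⟩
  refine w_amalg s RK ?_ ?_ ?_ hs ?_ he3.2 ?_
  · intro x h1 h2
    have : Sum.inl x ∈ Z e2 ∩ Z e3 := ⟨(hinl _ _).2 (Or.inl h1), (hinl _ _).2 (Or.inl h2)⟩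
    rw [h23] at this
    exact this
  · intro x hx h
    exact (ha23 x hx).2 h
  · intro x hx h
    apply Subset.antisymm
    · intro y hy
      have hyR := hcR e2 he2 x hx h hy
      have := Set.ext_iff.1 k2 (⟨x, hx⟩, ⟨y, hyR⟩)
      exact (this.1 ⟨h, hy⟩).2
    · intro y hy
      have h' := (ha23 x hx).1 h
      have hyR := hcR e3 he3.1 x hx h' hy
      have := Set.ext_iff.1 k2 (⟨x, hx⟩, ⟨y, hyR⟩)
      exact (this.2 ⟨h', hy⟩).2
  · intro x hx
    exact hs x (hRKs x hx)
  · intro j h1 h2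
    have hj : Sum.inr j ∈ Z e2 ∩ Z e3 := ⟨(hinr _ _).2 h1, (hinr _ _).2 h2⟩
    rw [h23] at hj
    have := congrFun k3 ⟨j, hj⟩
    have h3 := congrArg Subtype.val this
    simp only at h3
    rwa [min_eq_left ((q e2).hw j h1).le, min_eq_left ((q e3).hw j h2).le] at h3

end Pool.Agent.Q310.OS
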