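import Mathlib
import Pool.Agent.Helper292.SP.Lang

/-!
# The Ostaszewski square in a forcing extension

The forcing language is that of `Pool.Agent.Helper292.SP` (a sentence is represented by the set of
conditions forcing it, a name for a relation by a map to sets of conditions).  `Om` and `K` are
well-ordered sets of the ground model; `Om` plays the role of `λ = ω₁` and `K` that of `λ⁺`.
-/

set_option autoImplicit false

open Set Cardinal Pool.Agent.Helper292.SP

namespace Pool.Agent.Q310.OS

/-- Limit elements of a linear order. -/
def Limit {A : Type} [LinearOrder A] (a : A) : Prop :=
  (∃ b, b < a) ∧ ∀ b, b < a → ∃ c, b < c ∧ c < a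

section Statements

variable (P : Type) [Preorder P]

/-- In the extension there is a function from `X` onto `Y`. -/
def Onto (X Y : Type) : Set P :=
  fex fun F : X → Y → Set P => fand (IsFun F) (Covers F fun _ => (Set.univ : Set P))

/-- In the extension the power set of `X` is not an image of `Y`: for every family of subsets of
`X` indexed by `Y` some subset of `X` is different from all members of the family. -/
def PowNotLe (X Y : Type) : Set P :=
  fnot (fex fun E : Y → X → Set P => fall fun Z : X → Set P => fex fun y : Y =>
    fall fun x : X => fiff (meets (Z x)) (meets (E y x)))

variable {P}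
variable {K Om : Type} [LinearOrder K] [LinearOrder Om]

/-- The subset of `K` named by `X` is unbounded. -/
def Unb (X : K → Set P) : Set P :=
  fall fun a : K => fex fun b : K => fand (fground (a < b)) (meets (X b))

/-- `a` is a limit point of the set named by `X` (or the least element): the set is unbounded
below `a`. -/
def AccAt (X : K → Set P) (a : K) : Set P :=
  fall fun b : K => fall fun _ : b < a => fex fun c : K =>
    fand (fground (b < c ∧ c < a)) (meets (X c))

/-- The subset of `K` named by `X` is closed and unbounded. -/
def Club (X : K → Set P) : Set P :=
  fand (Unb X) (fall fun a : K => fall fun _ : Limit a => fimp (AccAt X a) (meets (X a)))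

/-- `C` names a `□_λ`-sequence, `λ⁺ = K`, `λ = ω₁`.  For every limit `a`: `C a` is a subset of
`a`, unbounded in `a`, closed in `a`, all proper initial segments of `C a` are countable (that is,
the order type of `C a` is at most `ω₁`), and if `b ∈ acc(C a)`, then `C b = C a ∩ b`. -/
def Square (C : K → K → Set P) : Set P :=
  fall fun a : K => fall fun _ : Limit a =>
    fand (fall fun b : K => fimp (meets (C a b)) (fground (b < a)))
    (fand (fall fun b : K => fall fun _ : b < a => fex fun c : K =>
        fand (fground (b < c)) (meets (C a c)))
    (fand (fall fun b : K => fall fun _ : Limit b ∧ b < a => fimp (AccAt (C a) b) (meets (C a b)))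
    (fand (fall fun b : K => fimp (meets (C a b)) (fex fun F : ℕ → K → Set P =>
        fand (IsFun F) (Covers F fun c => {q | c < b ∧ q ∈ C a c})))
      (fall fun b : K => fimp (fand (meets (C a b)) (AccAt (C a) b)) (fall fun c : K =>
        fiff (meets (C b c)) (fand (meets (C a c)) (fground (c < b))))))))

/-- `f` names the increasing enumeration of the set named by `X` in order type `t`. -/
def Enum {t : Om} (f : Iio t → K → Set P) (X : K → Set P) : Set P :=
  fand (IsFun f)
    (fand (fall fun i : Iio t => fall fun j : Iio t => fall fun _ : i < j =>
        fall fun x : K => fall fun y : K =>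
          fimp (fand (meets (f i x)) (meets (f j y))) (fground (x < y)))
      (fall fun x : K => fiff (meets (X x)) (fex fun i : Iio t => meets (f i x))))

/-- The guessing property: for every sequence `A` of unbounded subsets of `K`, every limit
`t < ω₁` and every club `D` in `K` there is a limit `a` such that `otp (C a) = t` and for all
`i < t`, `C a (i + 1) ∈ A i` and some element of `D` lies between `C a (i)` and `C a (i + 1)`. -/
def Guess (C : K → K → Set P) (Om : Type) [LinearOrder Om] : Set P :=
  fall fun A : Om → K → Set P => fall fun D : K → Set P => fall fun t : Om =>
    fall fun _ : Limit t =>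
    fimp (fand (fall fun i : Om => Unb (A i)) (Club D))
      (fex fun a : K => fand (fground (Limit a)) (fex fun f : Iio t → K → Set P =>
        fand (Enum f (C a))
          (fall fun i : Iio t => fall fun j : Iio t =>
            fall fun _ : i < j ∧ ∀ k : Om, i.1 < k → j.1 ≤ k =>
            fall fun x : K => fall fun y : K =>
              fimp (fand (meets (f i x)) (meets (f j y)))
                (fand (meets (A i.1 y)) (fex fun b : K =>
                  fand (fground (x < b ∧ b < y)) (meets (D b)))))))

variable (P)

/-- The Ostaszewski square `OS_λ` holds in the extension, for `λ = ω₁` and `λ⁺ = K`. -/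
def OSq (Om K : Type) [LinearOrder Om] [LinearOrder K] : Set P :=
  fex fun C : K → K → Set P => fand (Square C) (Guess C Om)

end Statements

end Pool.Agent.Q310.OS
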