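import Pool.Agent.Q310.OS.Lim

/-!
# Extending conditions
-/

set_option autoImplicit false
set_option linter.unusedSectionVars false

open Set Cardinal Pool.Agent.IncSeq

namespace Pool.Agent.Q310.OS

variable {K : Type} [LinearOrder K] [KK K] {I W : Type}

/-- adding one point above `c x`, for a set `T` of points `x` -/
theorem lim_add {X : Set K} {s g : K} (h : LimOf (X ∪ {s}) g) (hs : ∀ y ∈ X, y < s) :
    LimOf X g ∧ g ≤ s := by
  have hle : g ≤ s := by
    by_contra hcon
    obtain ⟨y, hy, h1, -⟩ := h.2 s (not_le.1 hcon)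
    rcases hy with hy | hy
    · exact absurd (hs y hy) (not_lt.2 h1.le)
    · rw [mem_singleton_iff] at hy
      rw [hy] at h1
      exact absurd h1 (lt_irrefl _)
  refine ⟨h.mono fun y hy hyg => ?_, hle⟩
  rcases hy with hy | hy
  · exact hy
  · rw [mem_singleton_iff] at hy
    rw [hy] at hyg
    exact absurd hle (not_le.2 hyg)

open Classical in
/-- Add one point above `c x` for every `x ∈ p.a`, `x > al`, with `c x ⊆ {y | y ≤ al}`; here
`al` is not in `p.a`. -/
theorem raise (p : Cond K I W) (al : K) (hal : al ∉ p.a) :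
    ∃ q ≤ p, q.a = p.a ∧ (∀ x ∈ p.a, al < x → ∃ y ∈ q.c x, al < y) ∧
      ∀ x ∈ p.a, LimOf (q.c x) al → LimOf (p.c x) al := by
  let c' : K → Set K := fun x => p.c x ∪ {y | y = nx al ∧ al < x ∧ ∀ z ∈ p.c x, z ≤ al}
  have hA : ∀ x, (al < x ∧ ∀ z ∈ p.c x, z ≤ al) → c' x = p.c x ∪ {nx al} := by
    intro x hx
    ext y
    simp only [c', mem_union, Set.mem_ofPred_eq, mem_singleton_iff]
    constructor
    · rintro (h | h)
      · exact Or.inl h
      · exact Or.inr h.1
    · rintro (h | h)
      · exact Or.inl h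
      · exact Or.inr ⟨h, hx⟩
  have hB : ∀ x, ¬ (al < x ∧ ∀ z ∈ p.c x, z ≤ al) → c' x = p.c x := by
    intro x hx
    ext y
    simp only [c', mem_union, Set.mem_ofPred_eq]
    constructor
    · rintro (h | h)
      · exact h
      · exact absurd h.2 hx
    · exact Or.inl
  have hlimc : ∀ x ∈ p.a, ∀ g, LimOf (c' x) g → LimOf (p.c x) g ∧
      ((al < x ∧ ∀ z ∈ p.c x, z ≤ al) → g ≤ al) := by
    intro x hx g hg
    by_cases h : al < x ∧ ∀ z ∈ p.c x, z ≤ al
    · rw [hA x h] at hg
      obtain ⟨h1, h2⟩ := lim_add hg (fun y hy => (h.2 y hy).trans_lt (lt_nx al))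
      refine ⟨h1, fun _ => ?_⟩
      by_contra hcon
      have h3 : g = nx al := le_antisymm h2 (nx_le (not_le.1 hcon))
      obtain ⟨y, hy, h4, -⟩ := h1.2 al (by rw [h3]; exact lt_nx al)
      exact absurd (h.2 y hy) (not_le.2 h4)
    · rw [hB x h] at hg
      exact ⟨hg, fun h' => absurd h' h⟩
  let q : Cond K I W :=
    { a := p.a
      c := c'
      d := p.d
      w := p.w
      ha := p.ha
      hd := p.hd
      hw := p.hw
      hlim := p.hlim
      hc := fun x hx => ((p.hc x hx).union (countable_singleton (nx al))).mono (by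
        by_cases h : al < x ∧ ∀ z ∈ p.c x, z ≤ al
        · rw [hA x h]
        · rw [hB x h]; exact subset_union_left)
      hsub := by
        rintro x hx y (hy | ⟨rfl, h1, h2⟩)
        · exact p.hsub x hx y hy
        · exact nx_lt (p.hlim x hx) h1
      hcoh := by
        intro x hx g hgx hg
        obtain ⟨hg', hgle⟩ := hlimc x hx g hg
        obtain ⟨h1, h2, h3⟩ := p.hcoh x hx g hgx hg'
        refine ⟨Or.inl h1, h2, ?_⟩
        by_cases hx' : al < x ∧ ∀ z ∈ p.c x, z ≤ al
        · have hgal : g < al := lt_of_le_of_ne (hgle hx') (fun h => hal (h ▸ h2))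
          rw [hA x hx', hB g (fun h => absurd h.1 (not_lt.2 hgal.le))]
          intro y
          rw [h3]
          constructor
          · rintro ⟨h4, h5⟩
            exact ⟨Or.inl h4, h5⟩
          · rintro ⟨h4 | h4, h5⟩
            · exact ⟨h4, h5⟩
            · rw [mem_singleton_iff] at h4
              rw [h4] at h5
              exact absurd (h5.trans hgal) (not_lt.2 (lt_nx al).le)
        · rw [hB x hx']
          have : ¬ (al < g ∧ ∀ z ∈ p.c g, z ≤ al) := by
            rintro ⟨h4, h5⟩
            obtain ⟨y, hy, h6, h7⟩ := hg'.2 al h4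
            exact absurd (h5 y ((h3 y).2 ⟨hy, h7⟩)) (not_le.2 h6)
          rw [hB g this]
          exact h3
      hsep := by
        intro x hx x' hx' h
        obtain ⟨y, hy, hxy⟩ := p.hsep x hx x' hx' h
        exact ⟨y, Or.inl hy, hxy⟩ }
  refine ⟨q, ⟨subset_rfl, fun x hx => ⟨fun y hy => Or.inl hy, ?_⟩, subset_rfl, fun _ _ => rfl⟩,
    rfl, ?_, ?_⟩
  · intro y hy hn z hz
    rcases hy with hy | ⟨rfl, h1, h2⟩
    · exact absurd hy hn
    · exact (h2 z hz).trans_lt (lt_nx al)
  · intro x hx hxal
    by_cases h : ∀ z ∈ p.c x, z ≤ al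
    · exact ⟨nx al, Or.inr ⟨rfl, hxal, h⟩, lt_nx al⟩
    · push Not at h
      obtain ⟨z, hz, hzal⟩ := h
      exact ⟨z, Or.inl hz, hzal⟩
  · intro x hx hg
    exact (hlimc x hx al hg).1

/-- a set without limit points which lies cofinally below a limit `al`, or at least above a given
countable set -/
theorem exists_free (al : K) (hal : Limit al) (B : Set K) (hB : B.Countable)
    (hBal : ∀ b ∈ B, b < al) :
    ∃ X : Set K, X.Countable ∧ (∀ y ∈ X, y < al) ∧ (∀ b ∈ B, ∃ y ∈ X, b < y) ∧
      ∀ g, g < al → ¬ LimOf X g := by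
  classical
  by_cases h : ∃ s, s < al ∧ ∀ b ∈ B, b ≤ s
  · obtain ⟨s, hs, hbs⟩ := h
    refine ⟨{nx s}, countable_singleton _, ?_, ?_, ?_⟩
    · intro y hy
      rw [mem_singleton_iff.1 hy]
      exact nx_lt hal hs
    · intro b hb
      exact ⟨nx s, rfl, (hbs b hb).trans_lt (lt_nx s)⟩
    · rintro g - ⟨⟨d, hd⟩, hg⟩
      obtain ⟨y, hy, -, h2⟩ := hg d hd
      obtain ⟨y', hy', h3, -⟩ := hg y h2
      rw [mem_singleton_iff] at hy hy'
      rw [hy, hy'] at h3
      exact absurd h3 (lt_irrefl _)
  · push Not at h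
    obtain ⟨b0, hb0⟩ : B.Nonempty := by
      obtain ⟨s, hs⟩ := hal.1
      obtain ⟨b, hb, -⟩ := h s hs
      exact ⟨b, hb⟩
    obtain ⟨e, he⟩ := hB.exists_eq_range ⟨b0, hb0⟩
    have heB : ∀ n, e n ∈ B := fun n => by rw [he]; exact mem_range_self n
    -- a strictly increasing sequence above the `e n`
    have hstep : ∀ (n : ℕ) (s : {s : K // s < al}), ∃ t : {t : K // t < al}, s.1 < t.1 ∧
        e n < t.1 := by
      intro n s
      obtain ⟨t, ht1, ht2⟩ := hal.2 (max s.1 (e n)) (max_lt s.2 (hBal _ (heB n)))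
      exact ⟨⟨t, ht2⟩, (le_max_left _ _).trans_lt ht1, (le_max_right _ _).trans_lt ht1⟩
    choose F hF1 hF2 using hstep
    obtain ⟨s0, hs0⟩ := hal.1
    let s : ℕ → {s : K // s < al} := fun n => Nat.rec ⟨s0, hs0⟩ (fun n s => F n s) n
    have hs : ∀ n, s (n + 1) = F n (s n) := fun n => rfl
    have hmono : StrictMono fun n => (s n).1 := strictMono_nat_of_lt_succ fun n => by
      rw [hs]; exact hF1 n (s n)
    have hcof : ∀ d, d < al → ∃ n, d < (s n).1 := by
      intro d hd
      obtain ⟨b, hb, hdb⟩ := h d hd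
      rw [he] at hb
      obtain ⟨n, rfl⟩ := hb
      exact ⟨n + 1, by rw [hs]; exact hdb.trans (hF2 n (s n))⟩
    refine ⟨range fun n => (s n).1, countable_range _, ?_, ?_, ?_⟩
    · rintro _ ⟨n, rfl⟩
      exact (s n).2
    · intro b hb
      obtain ⟨n, hn⟩ := hcof b (hBal b hb)
      exact ⟨_, ⟨n, rfl⟩, hn⟩
    · intro g hg hl
      obtain ⟨n, hn⟩ := hcof g hg
      -- the largest term below `g`
      obtain ⟨d, hd⟩ := hl.1
      obtain ⟨y, ⟨m, rfl⟩, -, hm⟩ := hl.2 d hd
      have hex : ∃ k, g ≤ (s k).1 := ⟨n, hn.le⟩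
      have h1 := Nat.find_spec hex
      have h2 : 0 < Nat.find hex := by
        rcases Nat.eq_zero_or_pos (Nat.find hex) with h0 | h0
        · rw [h0] at h1
          exact absurd (hmono.monotone (Nat.zero_le m)) (not_le.2 (lt_of_lt_of_le hm h1))
        · exact h0
      obtain ⟨k, hk⟩ : ∃ k, Nat.find hex = k + 1 := ⟨Nat.find hex - 1, by omega⟩
      have h3 : (s k).1 < g := by
        have := Nat.find_min hex (m := k) (by omega)
        exact not_le.1 this
      obtain ⟨y, ⟨m', rfl⟩, h4, h5⟩ := hl.2 _ h3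
      have h6 : k < m' := hmono.lt_iff_lt.1 h4
      have h7 : (s (k + 1)).1 ≤ (s m').1 := hmono.monotone h6
      rw [hk] at h1
      exact absurd (h1.trans h7) (not_le.2 h5)

open Classical in
/-- Every limit can be added to the first part. -/
theorem add_pt (p : Cond K I W) (al : K) (hal : Limit al) : ∃ q ≤ p, al ∈ q.a := by
  by_cases hmem : al ∈ p.a
  · exact ⟨p, le_rfl, hmem⟩
  obtain ⟨r, hrp, hra, hrs, hrl⟩ := raise p al hmem
  have hnr : al ∉ r.a := by rw [hra]; exact hmem
  obtain ⟨X, hXc, hXal, hXB, hXl⟩ := exists_free al hal {x ∈ r.a | x < al}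
    (r.ha.mono fun x hx => hx.1) (fun x hx => hx.2)
  have hnl : ∀ x ∈ r.a, al < x → ¬ LimOf (r.c x) al := by
    intro x hx hxal hl
    exact hnr (r.hcoh x hx al hxal hl).2.1
  let c' : K → Set K := fun x => if x = al then X else r.c x
  have hc1 : c' al = X := if_pos rfl
  have hc2 : ∀ x ∈ r.a, c' x = r.c x := fun x hx => if_neg (by
    intro h
    rw [h] at hx
    exact hnr hx)
  let q : Cond K I W :=
    { a := insert al r.a
      c := c'
      d := r.d
      w := r.w
      ha := r.ha.insert al
      hd := r.hd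
      hw := r.hw
      hlim := by
        rintro x (rfl | hx)
        · exact hal
        · exact r.hlim x hx
      hc := by
        rintro x (rfl | hx)
        · rw [hc1]; exact hXc
        · rw [hc2 x hx]; exact r.hc x hx
      hsub := by
        rintro x (rfl | hx)
        · rw [hc1]; exact hXal
        · rw [hc2 x hx]; exact r.hsub x hx
      hcoh := by
        rintro x (rfl | hx) g hgx hg
        · rw [hc1] at hg
          exact absurd hg (hXl g hgx)
        · rw [hc2 x hx] at hg ⊢
          obtain ⟨h1, h2, h3⟩ := r.hcoh x hx g hgx hg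
          rw [hc2 g h2]
          exact ⟨h1, Or.inr h2, h3⟩
      hsep := by
        rintro x (rfl | hx) x' (rfl | hx') h
        · exact absurd h (lt_irrefl _)
        · rw [hc2 x' hx']
          rw [hra] at hx'
          exact hrs x' hx' h
        · rw [hc1]
          exact hXB x ⟨hx, h⟩
        · rw [hc2 x' hx']
          exact r.hsep x hx x' hx' h }
  refine ⟨q, le_trans ?_ hrp, mem_insert _ _⟩
  refine ⟨subset_insert _ _, fun x hx => ?_, subset_rfl, fun _ _ => rfl⟩
  have h1 : q.c x = r.c x := hc2 x hx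
  rw [h1]
  exact ⟨subset_rfl, fun y hy hn => absurd hy hn⟩

open Classical in
/-- `c x` can be made to have members above any `dl < x`. -/
theorem grow (p : Cond K I W) (x0 : K) (hx0 : x0 ∈ p.a) (dl : K) (hdl : dl < x0) :
    ∃ q ≤ p, ∃ y ∈ q.c x0, dl < y := by
  by_cases h : ∃ y ∈ p.c x0, dl < y
  · exact ⟨p, le_rfl, h⟩
  push Not at h
  let c' : K → Set K := fun x => if x = x0 then p.c x0 ∪ {nx dl} else p.c x
  have hc1 : c' x0 = p.c x0 ∪ {nx dl} := if_pos rfl
  have hc2 : ∀ x, x ≠ x0 → c' x = p.c x := fun x hx => if_neg hx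
  have hnl : ∀ x ∈ p.a, x0 < x → ¬ LimOf (p.c x) x0 := by
    intro x hx hxx hl
    obtain ⟨-, -, h3⟩ := p.hcoh x hx x0 hxx hl
    obtain ⟨y, hy, h4, h5⟩ := hl.2 dl hdl
    exact absurd (h y ((h3 y).2 ⟨hy, h5⟩)) (not_le.2 h4)
  let q : Cond K I W :=
    { a := p.a
      c := c'
      d := p.d
      w := p.w
      ha := p.ha
      hd := p.hd
      hw := p.hw
      hlim := p.hlim
      hc := by
        intro x hx
        by_cases hxx : x = x0
        · subst hxx; rw [hc1]; exact (p.hc x hx).union (countable_singleton _)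
        · rw [hc2 x hxx]; exact p.hc x hx
      hsub := by
        intro x hx y hy
        by_cases hxx : x = x0
        · subst hxx
          rw [hc1] at hy
          rcases hy with hy | hy
          · exact p.hsub x hx y hy
          · rw [mem_singleton_iff.1 hy]
            exact nx_lt (p.hlim x hx) hdl
        · rw [hc2 x hxx] at hy; exact p.hsub x hx y hy
      hcoh := by
        intro x hx g hgx hg
        by_cases hxx : x = x0
        · subst hxx
          rw [hc1] at hg ⊢
          obtain ⟨h1, h2⟩ := lim_add hg (fun y hy => (h y hy).trans_lt (lt_nx dl))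
          obtain ⟨h3, h4, h5⟩ := p.hcoh x hx g hgx h1
          rw [hc2 g hgx.ne]
          refine ⟨Or.inl h3, h4, fun y => ?_⟩
          rw [h5]
          constructor
          · rintro ⟨h6, h7⟩
            exact ⟨Or.inl h6, h7⟩
          · rintro ⟨h6 | h6, h7⟩
            · exact ⟨h6, h7⟩
            · rw [mem_singleton_iff.1 h6] at h7
              exact absurd h7 (not_lt.2 h2)
        · rw [hc2 x hxx] at hg ⊢
          obtain ⟨h3, h4, h5⟩ := p.hcoh x hx g hgx hg
          have hg0 : g ≠ x0 := by
            rintro rfl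
            exact hnl x hx hgx hg
          rw [hc2 g hg0]
          exact ⟨h3, h4, h5⟩
      hsep := by
        intro x hx x' hx' hlt
        obtain ⟨y, hy, hxy⟩ := p.hsep x hx x' hx' hlt
        by_cases hxx : x' = x0
        · subst hxx
          rw [hc1]
          exact ⟨y, Or.inl hy, hxy⟩
        · rw [hc2 x' hxx]
          exact ⟨y, hy, hxy⟩ }
  have hq1 : q.c x0 = p.c x0 ∪ {nx dl} := hc1
  refine ⟨q, ⟨subset_rfl, fun x hx => ?_, subset_rfl, fun _ _ => rfl⟩, nx dl, ?_, lt_nx dl⟩
  · by_cases hxx : x = x0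
    · subst hxx
      rw [hq1]
      refine ⟨subset_union_left, fun y hy hn z hz => ?_⟩
      rcases hy with hy | hy
      · exact absurd hy hn
      · rw [mem_singleton_iff.1 hy]
        exact (h z hz).trans_lt (lt_nx dl)
    · have : q.c x = p.c x := hc2 x hxx
      rw [this]
      exact ⟨subset_rfl, fun y hy hn => absurd hy hn⟩
  · rw [hq1]
    exact Or.inr rfl

open Classical in
/-- adding a value of the partial function -/
theorem add_val (p : Cond K I W) (j : Jx I W K) (hj : j ∉ p.d) (v : K) (hv : v < bd j) :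
    ∃ q ≤ p, q.a = p.a ∧ q.c = p.c ∧ q.d = insert j p.d ∧ q.w j = v := by
  refine ⟨{ p with
    d := insert j p.d
    w := Function.update p.w j v
    hd := p.hd.insert j
    hw := ?_ }, ⟨subset_rfl, fun x hx => ⟨subset_rfl, fun y hy hn => absurd hy hn⟩,
      subset_insert _ _, fun i hi => ?_⟩, rfl, rfl, rfl, ?_⟩
  · rintro i (rfl | hi)
    · rw [Function.update_self]; exact hv
    · have hij : i ≠ j := by
        rintro rfl
        exact hj hi
      rw [Function.update_of_ne hij]
      exact p.hw i hi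
  · have hij : i ≠ j := by
      rintro rfl
      exact hj hi
    exact Function.update_of_ne hij _ _
  · exact Function.update_self _ _ _

/-- conditions exist -/
theorem nonempty_cond : Nonempty (Cond K I W) :=
  ⟨{ a := ∅
     c := fun _ => ∅
     d := ∅
     w := fun _ => Classical.choice (KK.ne (K := K))
     ha := countable_empty
     hd := countable_empty
     hw := fun j hj => absurd hj (notMem_empty j)
     hlim := fun j hj => absurd hj (notMem_empty j)
     hc := fun j hj => absurd hj (notMem_empty j)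
     hsub := fun j hj => absurd hj (notMem_empty j)
     hcoh := fun j hj => absurd hj (notMem_empty j)
     hsep := fun j hj => absurd hj (notMem_empty j) }⟩

end Pool.Agent.Q310.OS
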