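import Pool.Agent.Q310.OS.Dense
import Pool.Agent.Helper292.SP.Lib

/-!
# The guessing property of the generic square sequence
-/

set_option autoImplicit false
set_option linter.unusedSectionVars false

open Set Cardinal Pool.Agent.IncSeq Pool.Agent.Helper292.SP

namespace Pool.Agent.Q310.OS

variable {K : Type} [LinearOrder K] [KK K] {I W : Type} [LinearOrder W] [OrderBot W] [Om1 W]

abbrev CC (K I W : Type) [LinearOrder K] [KK K] : Type := Pool.Agent.Q310.OS.Cond K I W

theorem mem_Unb {P A : Type} [Preorder P] [LinearOrder A] {X : A → Set P} {p : P} :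
    p ∈ Unb X ↔ ∀ a, ∀ q ≤ p, ∃ r ≤ q, ∃ b, a < b ∧ r ∈ meets (X b) := by
  constructor
  · intro h a q hq
    obtain ⟨r, hr, b, hb1, hb2⟩ := mem_fex.1 (h a) q hq
    exact ⟨r, hr, b, hb1, hb2⟩
  · intro h a
    refine mem_fex.2 fun q hq => ?_
    obtain ⟨r, hr, b, hb1, hb2⟩ := h a q hq
    exact ⟨r, hr, b, hb1, hb2⟩

/-- a partial construction of the guessing point -/
structure Stt (A : W → K → Set (CC K I W)) (D : K → Set (CC K I W)) (p0 : CC K I W) where
  p : CC K I W
  hp : p ≤ p0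
  l : W
  f : W → K
  mono : ∀ i j, i < j → j ≤ l → f i < f j
  lim : ∀ j, j ≤ l → Limit j → f j ∈ p.a ∧ (∀ y, y ∈ p.c (f j) ↔ ∃ i, i < j ∧ y = f i) ∧
    ∀ d, d < f j → ∃ i, i < j ∧ d < f i
  suc : ∀ i j, i < j → j ≤ l → (∀ k, i < k → j ≤ k) →
    p ∈ meets (A i (f j)) ∧ ∃ b, f i < b ∧ b < f j ∧ p ∈ meets (D b)

variable {A : W → K → Set (CC K I W)} {D : K → Set (CC K I W)} {p0 : CC K I W}

def Le (t s : Stt A D p0) : Prop :=
  t.p ≤ s.p ∧ s.l ≤ t.l ∧ (∀ i, i ≤ s.l → t.f i = s.f i) ∧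
    ∀ i, s.l < i → i ≤ t.l → ∀ x ∈ s.p.a, x < t.f i

theorem Le.rfl' (s : Stt A D p0) : Le s s :=
  ⟨le_rfl, le_rfl, fun _ _ => rfl, fun _ h1 h2 => absurd h1 (not_lt.2 h2)⟩

theorem Le.trans' {u t s : Stt A D p0} (h : Le u t) (h' : Le t s) : Le u s := by
  refine ⟨h.1.trans h'.1, h'.2.1.trans h.2.1, fun i hi => ?_, fun i h1 h2 x hx => ?_⟩
  · rw [h.2.2.1 i (hi.trans h'.2.1), h'.2.2.1 i hi]
  · by_cases h3 : i ≤ t.l
    · rw [h.2.2.1 i h3]
      exact h'.2.2.2 i h1 h3 x hx
    · exact h.2.2.2 i (not_le.1 h3) h2 x (h'.1.1 hx)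

theorem exists_least' {Z : Type} [LinearOrder Z] [WellFoundedLT Z] (A : Set Z)
    (h : A.Nonempty) : ∃ a ∈ A, ∀ b ∈ A, a ≤ b :=
  ⟨WellFounded.min (wellFounded_lt (α := Z)) A h, WellFounded.min_mem _ A h,
    fun _ hb => WellFounded.min_le _ hb⟩

/-- strict suprema in well-orders -/
theorem exists_ssup {Z : Type} [LinearOrder Z] [WellFoundedLT Z] (X : Set Z)
    (hX : ∃ b, ∀ x ∈ X, x < b) : ∃ b, (∀ x ∈ X, x < b) ∧ ∀ d, d < b → ∃ x ∈ X, d ≤ x := by
  refine ⟨WellFounded.min (wellFounded_lt (α := Z)) {b | ∀ x ∈ X, x < b} hX,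
    WellFounded.min_mem (wellFounded_lt (α := Z)) _ hX, fun d hd => ?_⟩
  by_contra hcon
  push Not at hcon
  exact WellFounded.not_lt_min (wellFounded_lt (α := Z)) {b | ∀ x ∈ X, x < b} hcon hd

open Classical in
theorem stt_lb (s : ℕ → Stt A D p0) (hs : ∀ m n, m ≤ n → Le (s n) (s m)) :
    ∃ t : Stt A D p0, ∀ n, Le t (s n) := by
  obtain ⟨q, hq, hqa⟩ := exists_lb (f := fun n => (s n).p) fun m n h => (hs m n h).1
  by_cases hst : ∃ N, ∀ n, N ≤ n → (s n).l = (s N).l
  · obtain ⟨N, hN⟩ := hst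
    refine ⟨⟨q, (hq 0).trans (s 0).hp, (s N).l, (s N).f, (s N).mono, ?_, ?_⟩, ?_⟩
    · intro j hj hl
      obtain ⟨h1, h2, h3⟩ := (s N).lim j hj hl
      refine ⟨(hq N).1 h1, ?_, h3⟩
      rw [c_complete (hq N) h1 (fun d hd => by
        obtain ⟨i, hi, hdi⟩ := h3 d hd
        exact ⟨(s N).f i, (h2 _).2 ⟨i, hi, rfl⟩, hdi⟩)]
      exact h2
    · intro i j hij hj hk
      obtain ⟨h1, b, h2, h3, h4⟩ := (s N).suc i j hij hj hk
      exact ⟨down_meets h1 (hq N), b, h2, h3, down_meets h4 (hq N)⟩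
    · intro n
      rcases le_total n N with h | h
      · exact ⟨hq n, (hs n N h).2.1, (hs n N h).2.2.1, (hs n N h).2.2.2⟩
      · refine ⟨hq n, (hN n h).le, fun i hi => ?_, fun i h1 h2 => ?_⟩
        · exact ((hs N n h).2.2.1 i (hi.trans (hN n h).le)).symm
        · exact absurd h1 (not_lt.2 (h2.trans (hN n h).ge))
  · push Not at hst
    have hst' : ∀ N, ∃ n, N ≤ n ∧ (s N).l < (s n).l := by
      intro N
      obtain ⟨n, hn, hne⟩ := hst N
      exact ⟨n, hn, lt_of_le_of_ne (hs N n hn).2.1 (Ne.symm hne)⟩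
    obtain ⟨L, hL1, hL2⟩ := exists_ssup (range fun n => (s n).l) (by
      obtain ⟨w, hw⟩ := exists_gt_range (fun n => (s n).l)
      exact ⟨w, by rintro _ ⟨n, rfl⟩; exact hw n⟩)
    have hlL : ∀ n, (s n).l < L := fun n => hL1 _ ⟨n, rfl⟩
    have hLn : ∀ i, i < L → ∃ n, i ≤ (s n).l := by
      intro i hi
      obtain ⟨_, ⟨n, rfl⟩, hn⟩ := hL2 i hi
      exact ⟨n, hn⟩
    have hLlim : Limit L := by
      refine ⟨⟨_, hlL 0⟩, fun i hi => ?_⟩
      obtain ⟨n, hn⟩ := hLn i hi
      obtain ⟨m, -, hm⟩ := hst' n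
      exact ⟨(s m).l, hn.trans_lt hm, hlL m⟩
    let F : W → K := fun i => if h : ∃ n, i ≤ (s n).l then (s h.choose).f i else (s 0).f i
    have hF : ∀ n i, i ≤ (s n).l → F i = (s n).f i := by
      intro n i hi
      have h : ∃ n, i ≤ (s n).l := ⟨n, hi⟩
      have h1 : F i = (s h.choose).f i := dif_pos h
      rw [h1]
      rcases le_total n h.choose with h2 | h2
      · exact (hs _ _ h2).2.2.1 i hi
      · exact ((hs _ _ h2).2.2.1 i h.choose_spec).symm
    have hFm : ∀ i j, i < j → j < L → F i < F j := by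
      intro i j hij hj
      obtain ⟨n, hn⟩ := hLn j hj
      rw [hF n i (hij.le.trans hn), hF n j hn]
      exact (s n).mono i j hij hn
    have hLc : (Iio L).Countable := (Om1.ctb L).mono Iio_subset_Iic_self
    obtain ⟨g, hg1, hg2⟩ := exists_ssup (F '' Iio L) (bdd_countable _ (hLc.image F))
    have hFg : ∀ i, i < L → F i < g := fun i hi => hg1 _ ⟨i, hi, rfl⟩
    have hgF : ∀ d, d < g → ∃ i, i < L ∧ d < F i := by
      intro d hd
      obtain ⟨_, ⟨i, hi, rfl⟩, hdi⟩ := hg2 d hd
      obtain ⟨j, hij, hj⟩ := hLlim.2 i hi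
      exact ⟨j, hj, hdi.trans_lt (hFm i j hij hj)⟩
    have hglim : Limit g := by
      refine ⟨⟨_, hFg _ (hlL 0)⟩, fun d hd => ?_⟩
      obtain ⟨i, hi, hdi⟩ := hgF d hd
      exact ⟨F i, hdi, hFg i hi⟩
    have hpa : ∀ n, ∀ x ∈ (s n).p.a, ∀ i, (s n).l < i → i < L → x < F i := by
      intro n x hx i hni hi
      obtain ⟨m, hm⟩ := hLn i hi
      have h1 : i ≤ (s (max n m)).l := hm.trans (hs m _ (le_max_right n m)).2.1
      rw [hF _ i h1]
      exact (hs n _ (le_max_left n m)).2.2.2 i hni h1 x hx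
    have hqg : ∀ x ∈ q.a, x < g := by
      intro x hx
      obtain ⟨n, x', hx', hxx⟩ := hqa x hx
      obtain ⟨m, -, hm⟩ := hst' n
      exact hxx.trans_lt ((hpa n x' hx' _ hm (hlL m)).trans (hFg _ (hlL m)))
    have hgq : g ∉ q.a := fun h => lt_irrefl _ (hqg g h)
    -- old limit stages
    have hold : ∀ j, j < L → Limit j → F j ∈ q.a ∧ (∀ y, y ∈ q.c (F j) ↔ ∃ i, i < j ∧ y = F i) ∧
        ∀ d, d < F j → ∃ i, i < j ∧ d < F i := by
      intro j hj hl
      obtain ⟨n, hn⟩ := hLn j hj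
      obtain ⟨h1, h2, h3⟩ := (s n).lim j hn hl
      rw [← hF n j hn] at h1 h2 h3
      have h3' : ∀ d, d < F j → ∃ i, i < j ∧ d < F i := by
        intro d hd
        obtain ⟨i, hi, hdi⟩ := h3 d hd
        exact ⟨i, hi, by rw [hF n i (hi.le.trans hn)]; exact hdi⟩
      have h2' : ∀ y, y ∈ (s n).p.c (F j) ↔ ∃ i, i < j ∧ y = F i := by
        intro y
        rw [h2]
        constructor
        · rintro ⟨i, hi, rfl⟩
          exact ⟨i, hi, (hF n i (hi.le.trans hn)).symm⟩
        · rintro ⟨i, hi, rfl⟩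
          exact ⟨i, hi, hF n i (hi.le.trans hn)⟩
      refine ⟨(hq n).1 h1, ?_, h3'⟩
      rw [c_complete (hq n) h1 (fun d hd => by
        obtain ⟨i, hi, hdi⟩ := h3' d hd
        exact ⟨F i, (h2' _).2 ⟨i, hi, rfl⟩, hdi⟩)]
      exact h2'
    let c' : K → Set K := fun x => if x = g then F '' Iio L else q.c x
    have hc1 : c' g = F '' Iio L := if_pos rfl
    have hc2 : ∀ x, x ≠ g → c' x = q.c x := fun x hx => if_neg hx
    let q' : CC K I W :=
      { a := insert g q.a
        c := c'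
        d := q.d
        w := q.w
        ha := q.ha.insert g
        hd := q.hd
        hw := q.hw
        hlim := by
          rintro x (rfl | hx)
          · exact hglim
          · exact q.hlim x hx
        hc := by
          rintro x (rfl | hx)
          · rw [hc1]; exact hLc.image F
          · rw [hc2 x (hqg x hx).ne]; exact q.hc x hx
        hsub := by
          rintro x (rfl | hx)
          · rw [hc1]
            rintro _ ⟨i, hi, rfl⟩
            exact hFg i hi
          · rw [hc2 x (hqg x hx).ne]; exact q.hsub x hx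
        hcoh := by
          rintro x (rfl | hx) z hzx hz
          · rw [hc1] at hz ⊢
            -- the index of `z`
            obtain ⟨i0, hi0, hzi0⟩ := hgF z hzx
            obtain ⟨j, hj, hjmin⟩ : ∃ j, z ≤ F j ∧ ∀ k, z ≤ F k → j ≤ k :=
              exists_least' {j | z ≤ F j} ⟨i0, hzi0.le⟩
            have hjL : j < L := (hjmin i0 hzi0.le).trans_lt hi0
            have hlt : ∀ i, i < L → (F i < z ↔ i < j) := by
              intro i hi
              constructor
              · intro h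
                by_contra hcon
                push Not at hcon
                rcases hcon.eq_or_lt with h1 | h1
                · rw [← h1] at h
                  exact absurd h (not_lt.2 hj)
                · exact absurd (h.trans_le hj) (not_lt.2 (hFm j i h1 hi).le)
              · intro h
                by_contra hcon
                exact absurd (hjmin i (not_lt.1 hcon)) (not_le.2 h)
            have hjlim : Limit j := by
              obtain ⟨d, hd⟩ := hz.1
              obtain ⟨_, ⟨i, hi, rfl⟩, -, h1⟩ := hz.2 d hd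
              refine ⟨⟨i, (hlt i hi).1 h1⟩, fun k hk => ?_⟩
              obtain ⟨_, ⟨i, hi, rfl⟩, h2, h3⟩ := hz.2 (F k) ((hlt k (hk.trans hjL)).2 hk)
              refine ⟨i, ?_, (hlt i hi).1 h3⟩
              by_contra hcon
              push Not at hcon
              rcases hcon.eq_or_lt with h4 | h4
              · rw [h4] at h2; exact absurd h2 (lt_irrefl _)
              · exact absurd h2 (not_lt.2 (hFm i k h4 (hk.trans hjL)).le)
            obtain ⟨h1, h2, h3⟩ := hold j hjL hjlim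
            have hzj : z = F j := by
              refine le_antisymm hj ?_
              by_contra hcon
              push Not at hcon
              obtain ⟨i, hi, hzi⟩ := h3 z hcon
              exact absurd ((hlt i (hi.trans hjL)).2 hi) (not_lt.2 hzi.le)
            subst hzj
            refine ⟨⟨j, hjL, rfl⟩, Or.inr h1, fun y => ?_⟩
            rw [hc2 _ hzx.ne, h2]
            constructor
            · rintro ⟨i, hi, rfl⟩
              exact ⟨⟨i, hi.trans hjL, rfl⟩, (hlt i (hi.trans hjL)).2 hi⟩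
            · rintro ⟨⟨i, hi, rfl⟩, h4⟩
              exact ⟨i, (hlt i hi).1 h4, rfl⟩
          · rw [hc2 x (hqg x hx).ne] at hz ⊢
            obtain ⟨h1, h2, h3⟩ := q.hcoh x hx z hzx hz
            rw [hc2 z (hqg z h2).ne]
            exact ⟨h1, Or.inr h2, h3⟩
        hsep := by
          rintro x (rfl | hx) x' (rfl | hx') h
          · exact absurd h (lt_irrefl _)
          · exact absurd h (not_lt.2 (hqg x' hx').le)
          · rw [hc1]
            obtain ⟨i, hi, hxi⟩ := hgF x h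
            exact ⟨F i, ⟨i, hi, rfl⟩, hxi⟩
          · rw [hc2 x' (hqg x' hx').ne]
            exact q.hsep x hx x' hx' h }
    have hq'q : q' ≤ q := by
      refine ⟨subset_insert _ _, fun x hx => ?_, subset_rfl, fun _ _ => rfl⟩
      have h1 : q'.c x = q.c x := hc2 x (hqg x hx).ne
      rw [h1]
      exact ⟨subset_rfl, fun y hy hn => absurd hy hn⟩
    let f' : W → K := fun i => if i < L then F i else g
    have hf1 : ∀ i, i < L → f' i = F i := fun i hi => if_pos hi
    have hf2 : f' L = g := if_neg (lt_irrefl L)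
    refine ⟨⟨q', hq'q.trans ((hq 0).trans (s 0).hp), L, f', ?_, ?_, ?_⟩, ?_⟩
    · intro i j hij hj
      rcases hj.eq_or_lt with rfl | hj
      · rw [hf1 i hij, hf2]
        exact hFg i hij
      · rw [hf1 i (hij.trans hj), hf1 j hj]
        exact hFm i j hij hj
    · intro j hj hl
      rcases hj.eq_or_lt with rfl | hj
      · rw [hf2]
        refine ⟨mem_insert _ _, fun y => ?_, fun d hd => ?_⟩
        · change y ∈ c' g ↔ _
          rw [hc1]
          constructor
          · rintro ⟨i, hi, rfl⟩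
            exact ⟨i, hi, (hf1 i hi).symm⟩
          · rintro ⟨i, hi, rfl⟩
            exact ⟨i, hi, (hf1 i hi).symm⟩
        · obtain ⟨i, hi, hdi⟩ := hgF d hd
          exact ⟨i, hi, by rw [hf1 i hi]; exact hdi⟩
      · rw [hf1 j hj]
        obtain ⟨h1, h2, h3⟩ := hold j hj hl
        refine ⟨Or.inr h1, fun y => ?_, fun d hd => ?_⟩
        · change y ∈ c' (F j) ↔ _
          rw [hc2 _ (hFg j hj).ne, h2]
          constructor
          · rintro ⟨i, hi, rfl⟩
            exact ⟨i, hi, (hf1 i (hi.trans hj)).symm⟩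
          · rintro ⟨i, hi, rfl⟩
            exact ⟨i, hi, hf1 i (hi.trans hj)⟩
        · obtain ⟨i, hi, hdi⟩ := h3 d hd
          exact ⟨i, hi, by rw [hf1 i (hi.trans hj)]; exact hdi⟩
    · intro i j hij hj hk
      rcases hj.eq_or_lt with rfl | hj
      · obtain ⟨k, hk1, hk2⟩ := hLlim.2 i hij
        exact absurd (hk k hk1) (not_le.2 hk2)
      · obtain ⟨n, hn⟩ := hLn j hj
        obtain ⟨h1, b, h2, h3, h4⟩ := (s n).suc i j hij hn hk
        rw [hf1 i (hij.trans hj), hf1 j hj, hF n i (hij.le.trans hn), hF n j hn]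
        exact ⟨down_meets h1 (hq'q.trans (hq n)), b, h2, h3, down_meets h4 (hq'q.trans (hq n))⟩
    · intro n
      refine ⟨hq'q.trans (hq n), (hlL n).le, fun i hi => ?_, fun i h1 h2 x hx => ?_⟩
      · change f' i = _
        rw [hf1 i (hi.trans_lt (hlL n))]
        exact hF n i hi
      · change x < f' i
        rcases h2.eq_or_lt with h2 | h2
        · rw [h2, hf2]
          exact hqg x ((hq n).1 hx)
        · rw [hf1 i h2]
          exact hpa n x hx i h1 h2

open Classical in
/-- one more step -/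
theorem stt_step (hA : ∀ i, p0 ∈ Unb (A i)) (hD : p0 ∈ Unb D) (s : Stt A D p0) (t : W)
    (h1 : s.l < t) (h2 : ∀ k, s.l < k → t ≤ k) : ∃ u : Stt A D p0, Le u s ∧ u.l = t := by
  obtain ⟨q1, hq1, b, hb, hbD⟩ := mem_Unb.1 hD (s.f s.l) s.p s.hp
  obtain ⟨e, he⟩ := bdd_countable (insert b s.p.a) (s.p.ha.insert b)
  obtain ⟨q2, hq2, z, hz, hzA⟩ := mem_Unb.1 (hA s.l) e q1 (hq1.trans s.hp)
  have hbz : b < z := (he b (mem_insert _ _)).trans hz
  let f' : W → K := fun i => if i ≤ s.l then s.f i else z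
  have hf1 : ∀ i, i ≤ s.l → f' i = s.f i := fun i hi => if_pos hi
  have hf2 : ∀ i, s.l < i → f' i = z := fun i hi => if_neg (not_le.2 hi)
  refine ⟨⟨q2, hq2.trans (hq1.trans s.hp), t, f', ?_, ?_, ?_⟩, ⟨hq2.trans hq1, h1.le, hf1, ?_⟩, rfl⟩
  · intro i j hij hj
    by_cases hjl : j ≤ s.l
    · rw [hf1 i (hij.le.trans hjl), hf1 j hjl]
      exact s.mono i j hij hjl
    · push Not at hjl
      have hjt : j = t := le_antisymm hj (h2 j hjl)
      have hil : i ≤ s.l := by
        by_contra hcon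
        push Not at hcon
        exact absurd (h2 i hcon) (not_le.2 (hjt ▸ hij))
      rw [hf2 j hjl, hf1 i hil]
      have : s.f i ≤ s.f s.l := by
        rcases hil.eq_or_lt with h | h
        · rw [h]
        · exact (s.mono i s.l h le_rfl).le
      exact this.trans_lt (hb.trans hbz)
  · intro j hj hl
    by_cases hjl : j ≤ s.l
    · rw [hf1 j hjl]
      obtain ⟨k1, k2, k3⟩ := s.lim j hjl hl
      refine ⟨(hq2.trans hq1).1 k1, ?_, fun d hd => ?_⟩
      · rw [c_complete (hq2.trans hq1) k1 (fun d hd => by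
          obtain ⟨i, hi, hdi⟩ := k3 d hd
          exact ⟨s.f i, (k2 _).2 ⟨i, hi, rfl⟩, hdi⟩)]
        intro y
        rw [k2]
        constructor
        · rintro ⟨i, hi, rfl⟩
          exact ⟨i, hi, (hf1 i (hi.le.trans hjl)).symm⟩
        · rintro ⟨i, hi, rfl⟩
          exact ⟨i, hi, hf1 i (hi.le.trans hjl)⟩
      · obtain ⟨i, hi, hdi⟩ := k3 d hd
        exact ⟨i, hi, by rw [hf1 i (hi.le.trans hjl)]; exact hdi⟩
    · push Not at hjl
      have hjt : j = t := le_antisymm hj (h2 j hjl)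
      obtain ⟨k, hk1, hk2⟩ := hl.2 s.l hjl
      exact absurd (h2 k hk1) (not_le.2 (hjt ▸ hk2))
  · intro i j hij hj hk
    by_cases hjl : j ≤ s.l
    · rw [hf1 i (hij.le.trans hjl), hf1 j hjl]
      obtain ⟨k1, c, k2, k3, k4⟩ := s.suc i j hij hjl hk
      exact ⟨down_meets k1 (hq2.trans hq1), c, k2, k3, down_meets k4 (hq2.trans hq1)⟩
    · push Not at hjl
      have hjt : j = t := le_antisymm hj (h2 j hjl)
      have hil : i = s.l := by
        apply le_antisymm
        · by_contra hcon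
          push Not at hcon
          exact absurd (h2 i hcon) (not_le.2 (hjt ▸ hij))
        · by_contra hcon
          push Not at hcon
          exact absurd (hk s.l hcon) (not_le.2 hjl)
      subst hil
      rw [hf2 j hjl, hf1 _ le_rfl]
      exact ⟨hzA, b, hb, hbz, down_meets hbD hq2⟩
  · intro i hi _ x hx
    change x < f' i
    rw [hf2 i hi]
    exact (he x (mem_insert_of_mem _ hx)).trans hz

theorem stt_reach (hA : ∀ i, p0 ∈ Unb (A i)) (hD : p0 ∈ Unb D) (t : W) :
    ∀ s : Stt A D p0, ∃ u : Stt A D p0, Le u s ∧ t ≤ u.l := by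
  induction t using WellFoundedLT.induction with
  | ind t ih =>
    intro s
    rcases (Iio t).eq_empty_or_nonempty with h0 | h0
    · refine ⟨s, Le.rfl' s, ?_⟩
      by_contra hcon
      have : s.l ∈ Iio t := not_le.1 hcon
      rw [h0] at this
      exact this
    · obtain ⟨e, he⟩ := ((Om1.ctb t).mono Iio_subset_Iic_self : (Iio t).Countable).exists_eq_range h0
      have het : ∀ n, e n < t := fun n => by
        have : e n ∈ Iio t := he ▸ mem_range_self n
        exact this
      choose F hF1 hF2 using fun (n : ℕ) (s : Stt A D p0) => ih (e n) (het n) s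
      let sq : ℕ → Stt A D p0 := fun n => Nat.rec s (fun n s => F n s) n
      have hsq : ∀ n, sq (n + 1) = F n (sq n) := fun n => rfl
      have hle : ∀ m n, m ≤ n → Le (sq n) (sq m) := by
        intro m n h
        induction n, h using Nat.le_induction with
        | base => exact Le.rfl' _
        | succ n _ ihn => rw [hsq]; exact (hF1 n _).trans' ihn
      obtain ⟨u, hu⟩ := stt_lb sq hle
      have hul : ∀ i, i < t → i ≤ u.l := by
        intro i hi
        have : i ∈ range e := he ▸ hi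
        obtain ⟨n, rfl⟩ := this
        exact (hF2 n (sq n)).trans (hu (n + 1)).2.1
      by_cases htu : t ≤ u.l
      · exact ⟨u, hu 0, htu⟩
      · push Not at htu
        obtain ⟨v, hv, hvl⟩ := stt_step hA hD u t htu (fun k hk => by
          by_contra hcon
          exact absurd (hul k (not_le.1 hcon)) (not_le.2 hk))
        exact ⟨v, hv.trans' (hu 0), hvl.ge⟩

/-- the initial state -/
theorem stt_init (p : CC K I W) (hp : p ≤ p0) : ∃ s : Stt A D p0, s.p = p := by
  refine ⟨⟨p, hp, ⊥, fun _ => Classical.choice (KK.ne (K := K)), ?_, ?_, ?_⟩, rfl⟩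
  · intro i j hij hj
    exact absurd (bot_le.trans_lt hij) (not_lt.2 hj)
  · intro j hj hl
    obtain ⟨b, hb⟩ := hl.1
    exact absurd (bot_le.trans_lt hb) (not_lt.2 hj)
  · intro i j hij hj
    exact absurd (bot_le.trans_lt hij) (not_lt.2 hj)

/-- the name of the square sequence -/
def gC : K → K → Set (CC K I W) := fun x y => {q | x ∈ q.a ∧ y ∈ q.c x}

theorem gC_down {x y : K} {p q : CC K I W} (h : p ∈ gC x y) (hq : q ≤ p) : q ∈ gC x y :=
  ⟨hq.1 h.1, c_mono hq h.1 h.2⟩

theorem meets_gC {x y : K} {p : CC K I W} (h : p ∈ gC x y) : p ∈ meets (gC x y) :=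
  meets_of_mem (fun _ hq _ hr => gC_down hq hr) h

theorem of_meets_gC {x y : K} {p : CC K I W} (h : p ∈ meets (gC x y)) :
    ∃ q ≤ p, q ∈ gC x y := by
  obtain ⟨r, hr, s, hs, hrs⟩ := h p le_rfl
  exact ⟨r, hr, gC_down hs hrs⟩

/-- the generic square sequence guesses -/
theorem guess (p : CC K I W) : p ∈ Guess (gC (I := I) (W := W)) W := by
  intro A D t ht
  refine mem_fimp.2 fun p1 hp1 hp1h => ?_
  refine ⟨p1, le_rfl, ?_⟩
  refine mem_fex.2 fun q hq => ?_
  have hA : ∀ i, p1 ∈ Unb (A i) := fun i => hp1h.1 i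
  have hD : p1 ∈ Unb D := hp1h.2.1
  obtain ⟨s, hs⟩ := stt_init (A := A) (D := D) q hq
  obtain ⟨u, hus, hut⟩ := stt_reach hA hD t s
  refine ⟨u.p, hs ▸ hus.1, u.f t, ?_⟩
  obtain ⟨h1, h2, h3⟩ := u.lim t hut ht
  have hcof : ∀ d, d < u.f t → ∃ y ∈ u.p.c (u.f t), d < y := by
    intro d hd
    obtain ⟨i, hi, hdi⟩ := h3 d hd
    exact ⟨u.f i, (h2 _).2 ⟨i, hi, rfl⟩, hdi⟩
  refine ⟨u.p.hlim _ h1, ?_⟩
  refine mem_fex.2 fun r hr => ⟨r, le_rfl, fun i x => {_q | x = u.f i.1}, ?_, ?_⟩
  · refine ⟨⟨?_, ?_⟩, ?_, ?_⟩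
    · intro i
      refine mem_fex.2 fun r' _ => ⟨r', le_rfl, u.f i.1, ?_⟩
      exact meets_cst.2 rfl
    · intro i x y
      refine mem_fimp.2 fun r' _ h => ⟨r', le_rfl, ?_⟩
      have hx := meets_cst.1 h.1
      have hy := meets_cst.1 h.2
      exact hx.trans hy.symm
    · intro i j hij x y
      refine mem_fimp.2 fun r' _ h => ⟨r', le_rfl, ?_⟩
      have hx := meets_cst.1 h.1
      have hy := meets_cst.1 h.2
      change x < y
      rw [hx, hy]
      exact u.mono i.1 j.1 hij (j.2.le.trans hut)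
    · intro x
      constructor
      · refine mem_fimp.2 fun r' hr' h => ⟨r', le_rfl, ?_⟩
        refine mem_fex.2 fun r'' hr'' => ?_
        obtain ⟨v, hv, hvx⟩ := of_meets_gC (down_meets h hr'')
        have hc : v.c (u.f t) = u.p.c (u.f t) :=
          c_complete (hv.trans (hr''.trans (hr'.trans hr))) h1 hcof
        have hx : x ∈ u.p.c (u.f t) := hc ▸ hvx.2
        obtain ⟨i, hi, hxi⟩ := (h2 x).1 hx
        exact ⟨v, hv, ⟨i, hi⟩, meets_cst.2 hxi⟩
      · refine mem_fimp.2 fun r' hr' h => ?_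
        obtain ⟨v, hv, i, hvi⟩ := mem_fex.1 h r' le_rfl
        have hx := meets_cst.1 hvi
        refine ⟨v, hv, meets_gC ⟨?_, ?_⟩⟩
        · exact (hv.trans (hr'.trans hr)).1 h1
        · refine c_mono (hv.trans (hr'.trans hr)) h1 ((h2 x).2 ⟨i.1, i.2, hx⟩)
  · intro i j hij x y
    refine mem_fimp.2 fun r' hr' h => ⟨r', le_rfl, ?_⟩
    have hx := meets_cst.1 h.1
    have hy := meets_cst.1 h.2
    subst hx
    subst hy
    obtain ⟨k1, b, k2, k3, k4⟩ := u.suc i.1 j.1 hij.1 (j.2.le.trans hut) hij.2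
    refine ⟨down_meets k1 (hr'.trans hr), mem_fex.2 fun r'' hr'' => ⟨r'', le_rfl, b, ⟨k2, k3⟩, ?_⟩⟩
    exact down_meets k4 (hr''.trans (hr'.trans hr))

end Pool.Agent.Q310.OS
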