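import Pool.Agent.Q310.OS.Poset

/-!
# Decreasing sequences of conditions have lower bounds
-/

set_option autoImplicit false
set_option linter.unusedSectionVars false

open Set Cardinal Pool.Agent.IncSeq

namespace Pool.Agent.Q310.OS

variable {K : Type} [LinearOrder K] [KK K] {I W : Type}

section

variable (f : ℕ → Cond K I W)

/-- the union of the first parts -/
def aU : Set K := {x | ∃ n, x ∈ (f n).a}

/-- the union of the second parts -/
def cU (x : K) : Set K := {y | ∃ n, x ∈ (f n).a ∧ y ∈ (f n).c x}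

/-- `g` is the new limit point of `cU x` -/
def Stk (x g : K) : Prop := x ∈ aU f ∧ g < x ∧ LimOf (cU f x) g ∧ ∀ y ∈ cU f x, y < g

variable {f} (hf : ∀ m n, m ≤ n → f n ≤ f m)

include hf

theorem cU_below {x y z : K} {n : ℕ} (hx : x ∈ (f n).a) (hz : z ∈ (f n).c x)
    (hy : y ∈ cU f x) (hyz : y ≤ z) : y ∈ (f n).c x := by
  obtain ⟨m, hm, hym⟩ := hy
  have h1 : y ∈ (f (max m n)).c x := c_mono (hf m _ (le_max_left m n)) hm hym
  exact c_below (hf n _ (le_max_right m n)) hx hz h1 hyz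

theorem cU_end {x y z : K} {n : ℕ} (hx : x ∈ (f n).a) (hz : z ∈ (f n).c x)
    (hy : y ∈ cU f x) (hn : y ∉ (f n).c x) : z < y := by
  by_contra h
  exact hn (cU_below hf hx hz hy (not_lt.1 h))

theorem cU_sub {x y : K} (hy : y ∈ cU f x) : y < x := by
  obtain ⟨m, hm, hym⟩ := hy
  exact (f m).hsub x hm y hym

/-- limit points of `cU x` below one of its members -/
theorem cU_lim {x g z : K} (hg : LimOf (cU f x) g) (hz : z ∈ cU f x) (hgz : g ≤ z) :
    g ∈ cU f x ∧ g ∈ aU f ∧ (∀ y, y ∈ cU f g ↔ y ∈ cU f x ∧ y < g) ∧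
      ∀ d, d < g → ∃ y ∈ cU f g, d < y := by
  obtain ⟨n, hx, hzn⟩ := hz
  have hl : LimOf ((f n).c x) g := hg.mono fun y hy hyg =>
    cU_below hf hx hzn hy (hyg.le.trans hgz)
  obtain ⟨h1, h2, h3⟩ := (f n).hcoh x hx g (hgz.trans_lt ((f n).hsub x hx z hzn)) hl
  have hcof : ∀ d, d < g → ∃ y ∈ (f n).c g, d < y := by
    intro d hd
    obtain ⟨y, hy, hdy, hyg⟩ := hl.2 d hd
    exact ⟨y, (h3 y).2 ⟨hy, hyg⟩, hdy⟩
  refine ⟨⟨n, hx, h1⟩, ⟨n, h2⟩, ?_, ?_⟩
  · intro y
    constructor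
    · rintro ⟨m, hm, hym⟩
      have h4 : y ∈ (f (max m n)).c g := c_mono (hf m _ (le_max_left m n)) hm hym
      rw [c_complete (hf n _ (le_max_right m n)) h2 hcof] at h4
      exact ⟨⟨n, hx, ((h3 y).1 h4).1⟩, ((h3 y).1 h4).2⟩
    · rintro ⟨hy, hyg⟩
      exact ⟨n, h2, (h3 y).2 ⟨cU_below hf hx hzn hy (hyg.le.trans hgz), hyg⟩⟩
  · intro d hd
    obtain ⟨y, hy, hdy⟩ := hcof d hd
    exact ⟨y, ⟨n, h2, hy⟩, hdy⟩

theorem aU_sep {x x' : K} (hx : x ∈ aU f) (hx' : x' ∈ aU f) (h : x < x') :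
    ∃ y ∈ cU f x', x < y := by
  obtain ⟨m, hm⟩ := hx
  obtain ⟨n, hn⟩ := hx'
  obtain ⟨y, hy, hxy⟩ := (f (max m n)).hsep x ((hf m _ (le_max_left m n)).1 hm) x'
    ((hf n _ (le_max_right m n)).1 hn) h
  exact ⟨y, ⟨_, (hf n _ (le_max_right m n)).1 hn, hy⟩, hxy⟩

theorem stk_not_mem {x g : K} (h : Stk f x g) : g ∉ aU f := by
  intro hg
  obtain ⟨y, hy, hgy⟩ := aU_sep hf hg h.1 h.2.1
  exact absurd (h.2.2.2 y hy) (not_lt.2 hgy.le)

theorem stk_le {x x' g : K} (h : Stk f x' g) (hx : x ∈ aU f) (hg : g < x) : x' ≤ x := by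
  by_contra hcon
  obtain ⟨y, hy, hxy⟩ := aU_sep hf hx h.1 (not_le.1 hcon)
  exact absurd ((h.2.2.2 y hy).trans hg) (not_lt.2 hxy.le)

theorem stk_inj {x x' g : K} (h : Stk f x g) (h' : Stk f x' g) : x = x' :=
  le_antisymm (stk_le hf h h'.1 h'.2.1) (stk_le hf h' h.1 h.2.1)

theorem stk_uniq {x g g' : K} (h : Stk f x g) (h' : Stk f x g') : g = g' := by
  by_contra hne
  rcases lt_or_gt_of_ne hne with hlt | hlt
  · obtain ⟨y, hy, hgy, -⟩ := h'.2.2.1.2 g hlt
    exact absurd (h.2.2.2 y hy) (not_lt.2 hgy.le)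
  · obtain ⟨y, hy, hgy, -⟩ := h.2.2.1.2 g' hlt
    exact absurd (h'.2.2.2 y hy) (not_lt.2 hgy.le)

end

/-- the new first part -/
def aL (f : ℕ → Cond K I W) : Set K := {x | x ∈ aU f ∨ ∃ x', Stk f x' x}

/-- the new second part -/
def cL (f : ℕ → Cond K I W) (x : K) : Set K :=
  {y | (x ∈ aU f ∧ (y ∈ cU f x ∨ ∃ g, Stk f x g ∧ (y = g ∨ y = nx g))) ∨
    (x ∉ aU f ∧ ∃ x', Stk f x' x ∧ y ∈ cU f x')}

section

variable {f : ℕ → Cond K I W} (hf : ∀ m n, m ≤ n → f n ≤ f m)

include hf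

theorem cL_stk {x g : K} (h : Stk f x g) : cL f g = cU f x := by
  ext y
  constructor
  · rintro (⟨hg, -⟩ | ⟨-, x', hx', hy⟩)
    · exact absurd hg (stk_not_mem hf h)
    · rw [stk_inj hf h hx']; exact hy
  · intro hy
    exact Or.inr ⟨stk_not_mem hf h, x, h, hy⟩

/-- if `cU x` has a member above or equal to its limit point `g`, `g` is an old point -/
theorem cL_old {x g z : K} (hg : LimOf (cU f x) g) (hz : z ∈ cU f x) (hgz : g ≤ z) :
    g ∈ cU f x ∧ g ∈ aU f ∧ ∀ y, y ∈ cL f g ↔ y ∈ cU f x ∧ y < g := by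
  obtain ⟨h1, h2, h3, h4⟩ := cU_lim hf hg hz hgz
  refine ⟨h1, h2, fun y => ?_⟩
  rw [← h3]
  constructor
  · rintro (⟨-, hy | ⟨g', hg', -⟩⟩ | ⟨hn, -⟩)
    · exact hy
    · obtain ⟨y', hy', hgy⟩ := h4 g' hg'.2.1
      exact absurd (hg'.2.2.2 y' hy') (not_lt.2 hgy.le)
    · exact absurd h2 hn
  · intro hy
    exact Or.inl ⟨h2, Or.inl hy⟩

theorem hcohL : ∀ x ∈ aL f, ∀ g, g < x → LimOf (cL f x) g →
    g ∈ cL f x ∧ g ∈ aL f ∧ ∀ y, y ∈ cL f g ↔ y ∈ cL f x ∧ y < g := by
  classical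
  intro x hx g hgx hl
  by_cases hxa : x ∈ aU f
  · by_cases hst : ∃ g0, Stk f x g0
    · obtain ⟨g0, hg0⟩ := hst
      have hform : ∀ y, y ∈ cL f x ↔ y ∈ cU f x ∨ y = g0 ∨ y = nx g0 := by
        intro y
        constructor
        · rintro (⟨-, hy | ⟨g1, hg1, hy⟩⟩ | ⟨hn, -⟩)
          · exact Or.inl hy
          · rw [stk_uniq hf hg0 hg1]
            exact Or.inr hy
          · exact absurd hxa hn
        · rintro (hy | hy)
          · exact Or.inl ⟨hxa, Or.inl hy⟩
          · exact Or.inl ⟨hxa, Or.inr ⟨g0, hg0, hy⟩⟩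
      have hle : g ≤ g0 := by
        by_contra hcon
        push Not at hcon
        obtain ⟨y, hy, h1, h2⟩ := hl.2 g0 hcon
        rcases (hform y).1 hy with h | h | h
        · exact absurd (hg0.2.2.2 y h) (not_lt.2 h1.le)
        · exact absurd h1 (by rw [h]; exact lt_irrefl _)
        · subst h
          obtain ⟨y', hy', h1', -⟩ := hl.2 (nx g0) h2
          rcases (hform y').1 hy' with h | h | h
          · exact absurd ((lt_nx g0).trans h1') (not_lt.2 (hg0.2.2.2 y' h).le)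
          · rw [h] at h1'
            exact absurd h1' (not_lt.2 (lt_nx g0).le)
          · rw [h] at h1'
            exact absurd h1' (lt_irrefl _)
      rcases hle.eq_or_lt with rfl | hlt
      · refine ⟨(hform g).2 (Or.inr (Or.inl rfl)), Or.inr ⟨x, hg0⟩, fun y => ?_⟩
        rw [cL_stk hf hg0]
        constructor
        · intro hy
          exact ⟨(hform y).2 (Or.inl hy), hg0.2.2.2 y hy⟩
        · rintro ⟨hy, hyg⟩
          rcases (hform y).1 hy with h | h | h
          · exact h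
          · exact absurd hyg (by rw [h]; exact lt_irrefl _)
          · exact absurd hyg (by rw [h]; exact not_lt.2 (lt_nx g).le)
      · have hl' : LimOf (cU f x) g := hl.mono fun y hy hyg => by
          rcases (hform y).1 hy with h | h | h
          · exact h
          · exact absurd (hyg.trans hlt) (by rw [h]; exact lt_irrefl _)
          · exact absurd (hyg.trans hlt) (by rw [h]; exact not_lt.2 (lt_nx g0).le)
        obtain ⟨z, hz, hgz, -⟩ := hg0.2.2.1.2 g hlt
        obtain ⟨h1, h2, h3⟩ := cL_old hf hl' hz hgz.le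
        refine ⟨(hform g).2 (Or.inl h1), Or.inl h2, fun y => ?_⟩
        rw [h3]
        constructor
        · rintro ⟨hy, hyg⟩
          exact ⟨(hform y).2 (Or.inl hy), hyg⟩
        · rintro ⟨hy, hyg⟩
          refine ⟨?_, hyg⟩
          rcases (hform y).1 hy with h | h | h
          · exact h
          · exact absurd (hyg.trans hlt) (by rw [h]; exact lt_irrefl _)
          · exact absurd (hyg.trans hlt) (by rw [h]; exact not_lt.2 (lt_nx g0).le)
    · have hform : ∀ y, y ∈ cL f x ↔ y ∈ cU f x := by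
        intro y
        constructor
        · rintro (⟨-, hy | ⟨g1, hg1, hy⟩⟩ | ⟨hn, -⟩)
          · exact hy
          · exact absurd ⟨g1, hg1⟩ hst
          · exact absurd hxa hn
        · intro hy
          exact Or.inl ⟨hxa, Or.inl hy⟩
      have hl' : LimOf (cU f x) g := hl.mono fun y hy _ => (hform y).1 hy
      have hz : ∃ z ∈ cU f x, g ≤ z := by
        by_contra hcon
        push Not at hcon
        exact hst ⟨g, hxa, hgx, hl', hcon⟩
      obtain ⟨z, hz, hgz⟩ := hz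
      obtain ⟨h1, h2, h3⟩ := cL_old hf hl' hz hgz
      refine ⟨(hform g).2 h1, Or.inl h2, fun y => ?_⟩
      rw [h3, hform]
  · rcases hx with hx | ⟨x', hx'⟩
    · exact absurd hx hxa
    · have hform : cL f x = cU f x' := cL_stk hf hx'
      rw [hform] at hl ⊢
      obtain ⟨z, hz, hgz, -⟩ := hx'.2.2.1.2 g hgx
      obtain ⟨h1, h2, h3⟩ := cL_old hf hl hz hgz.le
      exact ⟨h1, Or.inl h2, h3⟩

theorem hsepL : ∀ x ∈ aL f, ∀ x' ∈ aL f, x < x' → ∃ y ∈ cL f x', x < y := by
  classical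
  intro x hx x' hx' h
  by_cases hxa' : x' ∈ aU f
  · by_cases hxa : x ∈ aU f
    · obtain ⟨y, hy, hxy⟩ := aU_sep hf hxa hxa' h
      exact ⟨y, Or.inl ⟨hxa', Or.inl hy⟩, hxy⟩
    · rcases hx with hx | ⟨z, hz⟩
      · exact absurd hx hxa
      · rcases (stk_le hf hz hxa' h).eq_or_lt with rfl | hlt
        · exact ⟨nx x, Or.inl ⟨hxa', Or.inr ⟨x, hz, Or.inr rfl⟩⟩, lt_nx x⟩
        · obtain ⟨y, hy, hxy⟩ := aU_sep hf hz.1 hxa' hlt
          exact ⟨y, Or.inl ⟨hxa', Or.inl hy⟩, hz.2.1.trans hxy⟩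
  · rcases hx' with hx' | ⟨z, hz⟩
    · exact absurd hx' hxa'
    · obtain ⟨y, hy, hxy, -⟩ := hz.2.2.1.2 x h
      refine ⟨y, ?_, hxy⟩
      rw [cL_stk hf hz]
      exact hy

open Classical in
/-- Decreasing sequences have lower bounds. -/
theorem exists_lb : ∃ q : Cond K I W, (∀ n, q ≤ f n) ∧ ∀ x ∈ q.a, ∃ n, ∃ x' ∈ (f n).a, x ≤ x' := by
  have haU : (aU f).Countable := by
    have : aU f = ⋃ n, (f n).a := by ext x; simp [aU]
    rw [this]
    exact countable_iUnion fun n => (f n).ha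
  have hcU : ∀ x, (cU f x).Countable := by
    intro x
    have : cU f x = ⋃ n, {y | x ∈ (f n).a ∧ y ∈ (f n).c x} := by ext y; simp [cU]
    rw [this]
    refine countable_iUnion fun n => ?_
    by_cases h : x ∈ (f n).a
    · exact ((f n).hc x h).mono fun y hy => hy.2
    · convert countable_empty
      ext y
      simp [h]
  have haL : (aL f).Countable := by
    have : aL f = aU f ∪ ⋃ x ∈ aU f, {g | Stk f x g} := by
      ext g
      constructor
      · rintro (h | ⟨x, hx⟩)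
        · exact Or.inl h
        · exact Or.inr (mem_biUnion hx.1 hx)
      · rintro (h | h)
        · exact Or.inl h
        · obtain ⟨x, -, hx⟩ := mem_iUnion₂.1 h
          exact Or.inr ⟨x, hx⟩
    rw [this]
    refine haU.union (haU.biUnion fun x _ => Set.Subsingleton.countable ?_)
    intro g hg g' hg'
    exact stk_uniq hf hg hg'
  have hcL : ∀ x ∈ aL f, (cL f x).Countable := by
    intro x hx
    by_cases hxa : x ∈ aU f
    · have : cL f x ⊆ cU f x ∪ ⋃ g ∈ {g | Stk f x g}, {g, nx g} := by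
        rintro y (⟨-, hy | ⟨g, hg, hy⟩⟩ | ⟨hn, -⟩)
        · exact Or.inl hy
        · exact Or.inr (mem_biUnion hg (by simpa using hy))
        · exact absurd hxa hn
      refine Countable.mono this ((hcU x).union (Countable.biUnion ?_ fun g _ => by simp))
      refine Set.Subsingleton.countable ?_
      intro g hg g' hg'
      exact stk_uniq hf hg hg'
    · rcases hx with hx | ⟨x', hx'⟩
      · exact absurd hx hxa
      · rw [cL_stk hf hx']
        exact hcU x'
  let wL : Jx I W K → K := fun j => if h : ∃ n, j ∈ (f n).d then (f h.choose).w j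
    else Classical.choice (KK.ne (K := K))
  have hwL : ∀ n, ∀ j ∈ (f n).d, wL j = (f n).w j := by
    intro n j hj
    have h : ∃ n, j ∈ (f n).d := ⟨n, hj⟩
    have h1 : wL j = (f h.choose).w j := dif_pos h
    rw [h1]
    rw [← (hf _ _ (le_max_left h.choose n)).2.2.2 j h.choose_spec,
      ← (hf _ _ (le_max_right h.choose n)).2.2.2 j hj]
  let q : Cond K I W :=
    { a := aL f
      c := cL f
      d := ⋃ n, (f n).d
      w := wL
      ha := haL
      hd := countable_iUnion fun n => (f n).hd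
      hw := by
        intro j hj
        obtain ⟨n, hn⟩ := mem_iUnion.1 hj
        rw [hwL n j hn]
        exact (f n).hw j hn
      hlim := by
        rintro x (⟨n, hx⟩ | ⟨x', hx'⟩)
        · exact (f n).hlim x hx
        · exact hx'.2.2.1.limit
      hc := hcL
      hsub := by
        intro x hx y hy
        rcases hy with ⟨hxa, hy | ⟨g, hg, hy⟩⟩ | ⟨-, x', hx', hy⟩
        · exact cU_sub hf hy
        · rcases hy with rfl | rfl
          · exact hg.2.1
          · obtain ⟨n, hn⟩ := hxa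
            exact nx_lt ((f n).hlim x hn) hg.2.1
        · exact hx'.2.2.2 y hy
      hcoh := hcohL hf
      hsep := hsepL hf }
  refine ⟨q, fun n => ⟨?_, ?_, ?_, ?_⟩, ?_⟩
  · intro x hx
    exact Or.inl ⟨n, hx⟩
  · intro x hx
    refine ⟨fun y hy => Or.inl ⟨⟨n, hx⟩, Or.inl ⟨n, hx, hy⟩⟩, ?_⟩
    intro y hy hn z hz
    rcases hy with ⟨-, hy | ⟨g, hg, hy⟩⟩ | ⟨hxn, -⟩
    · exact cU_end hf hx hz hy hn
    · have hzg : z < g := hg.2.2.2 z ⟨n, hx, hz⟩
      rcases hy with rfl | rfl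
      · exact hzg
      · exact hzg.trans (lt_nx g)
    · exact absurd ⟨n, hx⟩ hxn
  · exact subset_iUnion (fun n => (f n).d) n
  · intro j hj
    exact hwL n j hj
  · rintro x (⟨n, hx⟩ | ⟨x', hx'⟩)
    · exact ⟨n, x, hx, le_rfl⟩
    · obtain ⟨n, hn⟩ := hx'.1
      exact ⟨n, x', hn, hx'.2.1.le⟩

end

end Pool.Agent.Q310.OS
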