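import Pool.Agent.Q310.OS.Defs
import Pool.Agent.IncSeq.Ideal

/-!
# The poset

Countable approximations to a `□_{ω₁}`-sequence on `K`, together with countable partial functions
which add surjections from `ω₁` onto the initial segments of `K`, and many subsets of `ω₁`.
-/

set_option autoImplicit false
set_option linter.unusedSectionVars false

open Set Cardinal Pool.Agent.IncSeq

namespace Pool.Agent.Q310.OS

/-- well-orders like the successor of the continuum -/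
class KK (K : Type) [LinearOrder K] : Prop where
  wf : WellFoundedLT K
  small : ∀ a : K, #(Iic a) ≤ 2 ^ ℵ₀
  bdd : ∀ A : Set K, #A ≤ 2 ^ ℵ₀ → ∃ b, ∀ a ∈ A, a < b
  ne : Nonempty K

variable {K : Type} [LinearOrder K] [KK K]

instance (priority := 100) instWFK : WellFoundedLT K := KK.wf

theorem bdd_countable (A : Set K) (h : A.Countable) : ∃ b : K, ∀ a ∈ A, a < b :=
  KK.bdd A ((Cardinal.le_aleph0_iff_set_countable.2 h).trans (Cardinal.cantor ℵ₀).le)

/-- a least element of a nonempty set -/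
theorem exists_least (A : Set K) (h : A.Nonempty) : ∃ a ∈ A, ∀ b ∈ A, a ≤ b :=
  ⟨WellFounded.min (wellFounded_lt (α := K)) A h, WellFounded.min_mem _ A h,
    fun _ hb => WellFounded.min_le _ hb⟩

theorem exists_next (a : K) : ∃ b : K, a < b ∧ ∀ c, a < c → b ≤ c := by
  obtain ⟨b0, hb0⟩ := bdd_countable {a} (countable_singleton a)
  obtain ⟨b, hb, hmin⟩ := exists_least {c : K | a < c} ⟨b0, hb0 a rfl⟩
  exact ⟨b, hb, fun c hc => hmin c hc⟩

/-- the successor -/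
noncomputable def nx (a : K) : K := (exists_next a).choose

theorem lt_nx (a : K) : a < nx a := (exists_next a).choose_spec.1

theorem nx_le {a c : K} (h : a < c) : nx a ≤ c := (exists_next a).choose_spec.2 c h

theorem nx_lt {a c : K} (hc : Limit c) (h : a < c) : nx a < c := by
  obtain ⟨d, hd, hdc⟩ := hc.2 a h
  exact (nx_le hd).trans_lt hdc

theorem le_of_lt_nx {a c : K} (h : c < nx a) : c ≤ a := by
  by_contra hcon
  exact absurd (nx_le (not_le.1 hcon)) (not_le.2 h)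

/-- `g` is a limit point of `X` -/
def LimOf (X : Set K) (g : K) : Prop := (∃ d, d < g) ∧ ∀ d, d < g → ∃ x ∈ X, d < x ∧ x < g

theorem LimOf.limit {X : Set K} {g : K} (h : LimOf X g) : Limit g :=
  ⟨h.1, fun d hd => by obtain ⟨x, -, h1, h2⟩ := h.2 d hd; exact ⟨x, h1, h2⟩⟩

theorem LimOf.mono {X Y : Set K} {g : K} (h : LimOf X g) (hXY : ∀ x ∈ X, x < g → x ∈ Y) :
    LimOf Y g :=
  ⟨h.1, fun d hd => by
    obtain ⟨x, hx, h1, h2⟩ := h.2 d hd
    exact ⟨x, hXY x hx h2, h1, h2⟩⟩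

variable {I W : Type}

/-- indices of the partial functions -/
abbrev Jx (I W K : Type) : Type := (I × W) ⊕ (K × W)

/-- the bounds of the values -/
noncomputable def bd : Jx I W K → K
  | Sum.inl _ => nx (nx (Classical.choice (KK.ne (K := K))))
  | Sum.inr (a, _) => a

/-- conditions -/
structure Cond (K I W : Type) [LinearOrder K] [KK K] where
  a : Set K
  c : K → Set K
  d : Set (Jx I W K)
  w : Jx I W K → K
  ha : a.Countable
  hd : d.Countable
  hw : ∀ j ∈ d, w j < bd j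
  hlim : ∀ x ∈ a, Limit x
  hc : ∀ x ∈ a, (c x).Countable
  hsub : ∀ x ∈ a, ∀ y ∈ c x, y < x
  hcoh : ∀ x ∈ a, ∀ g, g < x → LimOf (c x) g → g ∈ c x ∧ g ∈ a ∧ ∀ y, y ∈ c g ↔ y ∈ c x ∧ y < g
  hsep : ∀ x ∈ a, ∀ x' ∈ a, x < x' → ∃ y ∈ c x', x < y

instance : Preorder (Cond K I W) where
  le q p := p.a ⊆ q.a ∧ (∀ x ∈ p.a, p.c x ⊆ q.c x ∧ ∀ y ∈ q.c x, y ∉ p.c x → ∀ z ∈ p.c x, z < y) ∧
    p.d ⊆ q.d ∧ ∀ j ∈ p.d, q.w j = p.w j
  le_refl p := ⟨subset_rfl, fun x _ => ⟨subset_rfl, fun y hy hn => absurd hy hn⟩, subset_rfl,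
    fun _ _ => rfl⟩
  le_trans r q p := by
    rintro ⟨h1, h2, h3, h4⟩ ⟨k1, k2, k3, k4⟩
    refine ⟨k1.trans h1, fun x hx => ⟨(k2 x hx).1.trans (h2 x (k1 hx)).1, fun y hy hn z hz => ?_⟩,
      k3.trans h3, fun j hj => ?_⟩
    · by_cases hyq : y ∈ q.c x
      · exact (k2 x hx).2 y hyq hn z hz
      · exact (h2 x (k1 hx)).2 y hy hyq z ((k2 x hx).1 hz)
    · rw [h4 j (k3 hj), k4 j hj]

theorem le_def {q p : Cond K I W} : q ≤ p ↔ p.a ⊆ q.a ∧
    (∀ x ∈ p.a, p.c x ⊆ q.c x ∧ ∀ y ∈ q.c x, y ∉ p.c x → ∀ z ∈ p.c x, z < y) ∧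
    p.d ⊆ q.d ∧ ∀ j ∈ p.d, q.w j = p.w j := Iff.rfl

theorem c_mono {p q : Cond K I W} (h : q ≤ p) {x y : K} (hx : x ∈ p.a) (hy : y ∈ p.c x) :
    y ∈ q.c x := (h.2.1 x hx).1 hy

/-- below an element of `p.c x` nothing new is added -/
theorem c_below {p q : Cond K I W} (h : q ≤ p) {x y z : K} (hx : x ∈ p.a) (hz : z ∈ p.c x)
    (hy : y ∈ q.c x) (hyz : y ≤ z) : y ∈ p.c x := by
  by_contra hn
  exact absurd ((h.2.1 x hx).2 y hy hn z hz) (not_lt.2 hyz)

/-- a cofinal `p.c x` does not grow -/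
theorem c_complete {p q : Cond K I W} (h : q ≤ p) {x : K} (hx : x ∈ p.a)
    (hcof : ∀ d, d < x → ∃ y ∈ p.c x, d < y) : q.c x = p.c x := by
  apply Subset.antisymm _ (h.2.1 x hx).1
  intro y hy
  obtain ⟨z, hz, hyz⟩ := hcof y (q.hsub x (h.1 hx) y hy)
  exact c_below h hx hz hy hyz.le

end Pool.Agent.Q310.OS
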