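import Pool.Agent.Q310.OS.Guess

/-!
# The generic sequence is a square sequence
-/

set_option autoImplicit false
set_option linter.unusedSectionVars false

open Set Cardinal Pool.Agent.IncSeq Pool.Agent.Helper292.SP

namespace Pool.Agent.Q310.OS

variable {K : Type} [LinearOrder K] [KK K] {I W : Type} [LinearOrder W] [OrderBot W] [Om1 W]

/-- the forced limit points are limit points of the decided part -/
theorem limOf_of_acc {a b z : K} {q r : CC K I W} (hq : q ∈ AccAt (gC (I := I) (W := W) a) b)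
    (hr : r ≤ q) (ha : a ∈ r.a) (hz : z ∈ r.c a) (hbz : b ≤ z) (hb : ∃ d, d < b) :
    LimOf (r.c a) b := by
  refine ⟨hb, fun d hd => ?_⟩
  obtain ⟨r', hr', c, hc, hcm⟩ := mem_fex.1 (hq d hd) r hr
  obtain ⟨r'', hr'', h⟩ := of_meets_gC hcm
  exact ⟨c, c_below (hr''.trans hr') ha hz h.2 (hc.2.le.trans hbz), hc.1, hc.2⟩

theorem square (p : CC K I W) : p ∈ Square (gC (I := I) (W := W)) := by
  intro a ha
  refine ⟨?_, ?_, ?_, ?_, ?_⟩
  · intro b
    refine mem_fimp.2 fun q _ hq => ?_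
    obtain ⟨r, hr, h⟩ := of_meets_gC hq
    exact ⟨r, hr, r.hsub a h.1 b h.2⟩
  · intro b hb
    refine mem_fex.2 fun q _ => ?_
    obtain ⟨r, hr, har⟩ := add_pt q a ha
    obtain ⟨s, hs, y, hy, hby⟩ := grow r a har b hb
    exact ⟨s, hs.trans hr, y, hby, meets_gC ⟨hs.1 har, hy⟩⟩
  · intro b hb
    refine mem_fimp.2 fun q _ hq => ?_
    obtain ⟨r, hr, har⟩ := add_pt q a ha
    obtain ⟨s, hs, y, hy, hby⟩ := grow r a har b hb.2
    have hl := limOf_of_acc hq (hs.trans hr) (hs.1 har) hy hby.le hb.1.1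
    exact ⟨s, hs.trans hr, meets_gC ⟨hs.1 har, (s.hcoh a (hs.1 har) b hb.2 hl).1⟩⟩
  · intro b
    refine mem_fimp.2 fun q _ hq => ?_
    obtain ⟨r, hr, har, hbr⟩ := of_meets_gC hq
    have hcnt : {c ∈ r.c a | c < b}.Countable := (r.hc a har).mono fun c hc => hc.1
    obtain ⟨e, he⟩ : ∃ e : ℕ → K, {c ∈ r.c a | c < b} ⊆ range e := by
      rcases Set.eq_empty_or_nonempty {c ∈ r.c a | c < b} with h0 | h0
      · exact ⟨fun _ => b, by rw [h0]; exact empty_subset _⟩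
      · obtain ⟨e, he⟩ := hcnt.exists_eq_range h0
        exact ⟨e, he.le⟩
    refine ⟨r, hr, mem_fex.2 fun r' hr' => ⟨r', le_rfl, fun n x => {_q | x = e n}, ⟨?_, ?_⟩, ?_⟩⟩
    · intro n
      refine mem_fex.2 fun s _ => ⟨s, le_rfl, e n, meets_cst.2 rfl⟩
    · intro n x y
      refine mem_fimp.2 fun s _ h => ⟨s, le_rfl, ?_⟩
      have hx := meets_cst.1 h.1
      have hy := meets_cst.1 h.2
      exact hx.trans hy.symm
    · intro y
      refine mem_fimp.2 fun s hs h => ⟨s, le_rfl, mem_fex.2 fun t ht => ?_⟩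
      obtain ⟨u, hu, v, ⟨hyb, hv⟩, huv⟩ := h t ht
      have h1 := (gC_down hv huv).2
      have h2 : y ∈ r.c a := c_below (hu.trans (ht.trans (hs.trans hr'))) har hbr h1 hyb.le
      obtain ⟨n, hn⟩ := he ⟨h2, hyb⟩
      exact ⟨u, hu, n, meets_cst.2 hn.symm⟩
  · intro b
    refine mem_fimp.2 fun q _ hq => ?_
    obtain ⟨r, hr, har, hbr⟩ := of_meets_gC hq.1
    by_cases hb : ∃ d, d < b
    · have hba : b < a := r.hsub a har b hbr
      have hl := limOf_of_acc hq.2 hr har hbr le_rfl hb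
      obtain ⟨-, h2, h3⟩ := r.hcoh a har b hba hl
      have hcof : ∀ d, d < b → ∃ y ∈ r.c b, d < y := by
        intro d hd
        obtain ⟨y, hy, h4, h5⟩ := hl.2 d hd
        exact ⟨y, (h3 y).2 ⟨hy, h5⟩, h4⟩
      refine ⟨r, hr, fun c => ⟨?_, ?_⟩⟩
      · refine mem_fimp.2 fun s hs h => ?_
        obtain ⟨t, ht, htc⟩ := of_meets_gC h
        have h4 : t.c b = r.c b := c_complete (ht.trans hs) h2 hcof
        have h5 : c ∈ r.c b := h4 ▸ htc.2
        obtain ⟨h6, h7⟩ := (h3 c).1 h5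
        exact ⟨t, ht, meets_gC ⟨(ht.trans hs).1 har, c_mono (ht.trans hs) har h6⟩, h7⟩
      · refine mem_fimp.2 fun s hs h => ?_
        obtain ⟨t, ht, htc⟩ := of_meets_gC h.1
        have hcb : c < b := h.2
        have h5 : c ∈ r.c a := c_below (ht.trans hs) har hbr htc.2 hcb.le
        have h6 : c ∈ r.c b := (h3 c).2 ⟨h5, hcb⟩
        exact ⟨t, ht, meets_gC ⟨(ht.trans hs).1 h2, c_mono (ht.trans hs) h2 h6⟩⟩
    · refine ⟨r, hr, fun c => ⟨?_, ?_⟩⟩
      · refine mem_fimp.2 fun s hs h => ?_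
        obtain ⟨t, ht, htc⟩ := of_meets_gC h
        exact absurd (t.hlim b htc.1).1 hb
      · refine mem_fimp.2 fun s hs h => ?_
        exact absurd ⟨c, h.2⟩ hb

end Pool.Agent.Q310.OS
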